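import Mathlib

set_option autoImplicit false

namespace Pool.Agent.Helper75.CV

/-- A class of groups. -/
abbrev GroupClass : Type 1 := (G : Type) → [Group G] → Prop

/-- A formation: a non-empty class of finite groups, closed under isomorphism and under quotients,
that contains `G / (M ∩ N)` whenever it contains `G / M` and `G / N`. -/
structure IsFormation (F : GroupClass) : Prop where
  nonempty : ∃ (G : Type) (_ : Group G), F G
  finite : ∀ (G : Type) [Group G], F G → Finite G
  iso : ∀ (G H : Type) [Group G] [Group H], Nonempty (G ≃* H) → F G → F H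
  quotient : ∀ (G : Type) [Group G] (N : Subgroup G) [N.Normal], F G → F (G ⧸ N)
  subdirect : ∀ (G : Type) [Group G] [Finite G] (M N : Subgroup G) [M.Normal] [N.Normal],
    F (G ⧸ M) → F (G ⧸ N) → F (G ⧸ (M ⊓ N))

/-- `F` is closed under subgroups. -/
def Hereditary (F : GroupClass) : Prop := ∀ (G : Type) [Group G] (H : Subgroup G), F G → F H

/-- `H / K` is a chief factor of `G`. -/
structure IsChief {G : Type} [Group G] (K H : Subgroup G) : Prop where
  normal_left : K.Normal
  normal_right : H.Normal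
  lt : K < H
  minimal : ∀ N : Subgroup G, N.Normal → K ≤ N → N ≤ H → N = K ∨ N = H

/-- The centralizer `C_G(H/K)` of a factor `H/K` of `G`: the preimage of the centralizer of the
image of `H` in `G/K`. -/
def cent {G : Type} [Group G] (K H : Subgroup G) [K.Normal] : Subgroup G :=
  (Subgroup.centralizer ((H.map (QuotientGroup.mk' K) : Subgroup (G ⧸ K)) : Set (G ⧸ K))).comap
    (QuotientGroup.mk' K)

/-- `F` is local: there is a function `f` assigning to each prime a formation or the empty class
such that a finite group `G` is in `F` exactly if `G / C_G(H/K)` is in `f p` for every chief factor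
`H/K` of `G` and every prime `p` dividing `|H/K|`. -/
def IsLocal (F : GroupClass) : Prop :=
  ∃ f : ℕ → GroupClass, (∀ p, IsFormation (f p) ∨ ∀ (G : Type) [Group G], ¬ f p G) ∧
    ∀ (G : Type) [Group G] [Finite G], F G ↔ ∀ (K H : Subgroup G) [K.Normal], IsChief K H →
      ∀ p : ℕ, p.Prime → p ∣ K.relIndex H →
        ∃ _ : (cent K H).Normal, f p (G ⧸ cent K H)

/-- `H` is an `F`-covering subgroup of `G`. -/
def IsCovering (F : GroupClass) {G : Type} [Group G] (H : Subgroup G) : Prop :=
  F H ∧ ∀ U : Subgroup G, H ≤ U → ∀ (N : Subgroup U) [N.Normal], F (U ⧸ N) →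
    H.subgroupOf U ⊔ N = ⊤

/-- The class of the finite nilpotent groups whose order has all its prime factors in `π`. -/
def NP (π : Set ℕ) : GroupClass := fun G _ =>
  Finite G ∧ Group.IsNilpotent G ∧ ∀ p : ℕ, p.Prime → p ∣ Nat.card G → p ∈ π

/-- Nilpotent `π`-subgroups that contain the elements of prime power order `p^k`, `p` in `π`, of
their normalizers. -/
structure Good (π : Set ℕ) {G : Type} [Group G] (H : Subgroup G) : Prop where
  nil : Group.IsNilpotent H
  primes : ∀ p : ℕ, p.Prime → p ∣ Nat.card H → p ∈ π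
  norm : ∀ x : G, (∀ h ∈ H, x * h * x⁻¹ ∈ H) → ∀ p ∈ π, ∀ k : ℕ, orderOf x = p ^ k → x ∈ H

/-- `H` is the product of its `q`-part `P` and its `q'`-part `A`. -/
structure Split (q : ℕ) {G : Type} [Group G] (H P A : Subgroup G) : Prop where
  hP : P ≤ H
  hA : A ≤ H
  pP : IsPGroup q P
  pA : ∀ a ∈ A, ¬ q ∣ orderOf a
  comm : ∀ x ∈ P, ∀ a ∈ A, x * a = a * x
  prod : ∀ h ∈ H, ∃ x ∈ P, ∃ a ∈ A, h = x * a
  memP : ∀ x ∈ H, ∀ k : ℕ, orderOf x = q ^ k → x ∈ P
  memA : ∀ x ∈ H, ¬ q ∣ orderOf x → x ∈ A

end Pool.Agent.Helper75.CV
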