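import Pool.Agent.Helper75.CV.Defs

set_option autoImplicit false

namespace Pool.Agent.Helper75.CV



open Polynomial in
theorem diag_aux {K V : Type} [Field K] [AddCommGroup V] [Module K V]
    (f : V →ₗ[K] V) (s : Finset K) :
    LinearMap.ker (aeval f (∏ μ ∈ s, (X - C μ))) ≤ ⨆ μ : K, Module.End.eigenspace f μ := by
  classical
  induction s using Finset.induction_on with
  | empty =>
    intro v hv
    have : v = 0 := by simpa using hv
    rw [this]; exact Submodule.zero_mem _
  | insert μ s hμ ih =>
    have hco : IsCoprime (X - C μ : K[X]) (∏ ν ∈ s, (X - C ν)) := by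
      apply IsCoprime.prod_right
      intro ν hν
      apply isCoprime_X_sub_C_of_isUnit_sub
      have : μ ≠ ν := fun h => hμ (h ▸ hν)
      exact (sub_ne_zero.mpr this).isUnit
    rw [Finset.prod_insert hμ, ← Polynomial.sup_ker_aeval_eq_ker_aeval_mul_of_coprime f hco]
    apply sup_le _ ih
    refine le_trans ?_ (le_iSup _ μ)
    intro v hv
    rw [Module.End.mem_eigenspace_iff]
    have h1 : f v - μ • v = 0 := by
      simpa [LinearMap.mem_ker, Module.algebraMap_end_apply] using hv
    exact sub_eq_zero.mp h1

theorem diag {K V : Type} [Field K] [Fintype K] [AddCommGroup V] [Module K V] [Finite V]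
    (a : V ≃ₗ[K] V) (h : a ^ (Fintype.card K - 1) = 1) :
    ⨆ μ : K, Module.End.eigenspace (a : V →ₗ[K] V) μ = ⊤ := by
  classical
  have hcard : 1 < Fintype.card K := Fintype.one_lt_card
  have hpow : ∀ (n : ℕ) (v : V), ((a : V →ₗ[K] V) ^ n) v = (a ^ n) v := by
    intro n
    induction n with
    | zero => intro v; simp
    | succ n ih => intro v; rw [pow_succ, pow_succ, Module.End.mul_apply, ih]; rfl
  have hprod : (∏ μ : K, (Polynomial.X - Polynomial.C μ)) =
      (Polynomial.X ^ Fintype.card K - Polynomial.X : Polynomial K) := by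
    have hroots := FiniteField.roots_X_pow_card_sub_X K
    have hmonic : (Polynomial.X ^ Fintype.card K - Polynomial.X : Polynomial K).Monic :=
      Polynomial.monic_X_pow_sub (by rw [Polynomial.degree_X]; exact_mod_cast hcard)
    have hdeg : (Polynomial.X ^ Fintype.card K - Polynomial.X : Polynomial K).natDegree =
        Fintype.card K := FiniteField.X_pow_card_sub_X_natDegree_eq K hcard
    have := Polynomial.prod_multiset_X_sub_C_of_monic_of_roots_card_eq hmonic (by
      rw [hroots, hdeg]; rfl)
    rw [hroots] at this
    exact this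
  rw [eq_top_iff]
  refine le_trans ?_ (diag_aux (a : V →ₗ[K] V) Finset.univ)
  rw [hprod]
  intro v _
  rw [LinearMap.mem_ker, map_sub, map_pow, Polynomial.aeval_X, LinearMap.sub_apply, hpow]
  have h2 : a ^ Fintype.card K = a := by
    have : Fintype.card K = (Fintype.card K - 1) + 1 := by omega
    rw [this, pow_succ, h, one_mul]
  rw [h2]
  simp

end Pool.Agent.Helper75.CV
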