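import Pool.Agent.Helper75.CV.Defs
import Pool.Agent.Helper75.CV.P_diag

set_option autoImplicit false

namespace Pool.Agent.Helper75.CV



theorem abel_comm (A : Type) [Group A] (hA : Group.IsNilpotent A) (hab : ∃ a b : A, a * b ≠ b * a) :
    ∃ x y : A, x * y * x⁻¹ * y⁻¹ ≠ 1 ∧ x * y * x⁻¹ * y⁻¹ ∈ Subgroup.center A := by
  classical
  have hne : ∃ n, ¬ (Subgroup.upperCentralSeries A n ≤ Subgroup.center A) := by
    obtain ⟨n, hn⟩ := Group.IsNilpotent.nilpotent A
    refine ⟨n, fun hle => ?_⟩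
    obtain ⟨a, b, hne⟩ := hab
    rw [hn] at hle
    have h1 := hle (Subgroup.mem_top a)
    exact hne ((Subgroup.mem_center_iff.1 h1 b).symm)
  have hspec := Nat.find_spec hne
  have hmin := fun m (hm : m < Nat.find hne) => not_not.1 (Nat.find_min hne hm)
  obtain ⟨m, hm⟩ : ∃ m, Nat.find hne = m + 1 := by
    rcases Nat.eq_zero_or_eq_succ_pred (Nat.find hne) with h0 | h0
    · exfalso
      apply hspec
      rw [h0, Subgroup.upperCentralSeries_zero]
      exact bot_le
    · exact ⟨_, h0⟩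
  rw [hm] at hspec
  obtain ⟨x, hx, hxc⟩ := SetLike.not_le_iff_exists.1 hspec
  rw [Subgroup.mem_center_iff] at hxc
  push Not at hxc
  obtain ⟨y, hy⟩ := hxc
  have h1 := (Subgroup.mem_upperCentralSeries_succ_iff.1 hx) y
  refine ⟨x, y, ?_, hmin m (by omega) h1⟩
  intro h2
  apply hy
  have h3 : x * y = y * x := by
    have := mul_inv_eq_one.1 h2
    have h4 := mul_inv_eq_iff_eq_mul.1 this
    exact h4
  exact h3.symm

theorem abel {K V : Type} [Field K] [Fintype K] [AddCommGroup V] [Module K V] [Finite V]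
    (A : Subgroup (V ≃ₗ[K] V)) (hA : Group.IsNilpotent A)
    (h : ∀ a ∈ A, a ^ (Fintype.card K - 1) = 1)
    (hs : ∀ s : ℕ, s.Prime → s ∣ Nat.card A → Module.finrank K V < s) :
    ∀ a ∈ A, ∀ b ∈ A, a * b = b * a := by

  classical
  by_contra hcon
  push Not at hcon
  obtain ⟨a0, ha0, b0, hb0, hab⟩ := hcon
  obtain ⟨x, y, hz1, hzc⟩ := abel_comm A hA ⟨⟨a0, ha0⟩, ⟨b0, hb0⟩, fun h => hab (congrArg Subtype.val h)⟩
  set z : A := x * y * x⁻¹ * y⁻¹ with hz
  have hxy : x * y = z * (y * x) := by rw [hz]; group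
  have hzx : z * x = x * z := (Subgroup.mem_center_iff.1 hzc x).symm
  have hzy : z * y = y * z := (Subgroup.mem_center_iff.1 hzc y).symm
  set Z : V →ₗ[K] V := ((z : V ≃ₗ[K] V) : V →ₗ[K] V) with hZ
  set X : V →ₗ[K] V := ((x : V ≃ₗ[K] V) : V →ₗ[K] V) with hX
  set Y : V →ₗ[K] V := ((y : V ≃ₗ[K] V) : V →ₗ[K] V) with hY
  have vxy : ∀ v, X (Y v) = Z (Y (X v)) := by
    intro v
    exact congrArg (fun g : A => (g : V ≃ₗ[K] V) v) hxy
  have vzx : ∀ v, Z (X v) = X (Z v) := by
    intro v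
    exact congrArg (fun g : A => (g : V ≃ₗ[K] V) v) hzx
  have vzy : ∀ v, Z (Y v) = Y (Z v) := by
    intro v
    exact congrArg (fun g : A => (g : V ≃ₗ[K] V) v) hzy
  have hdiag := diag (z : V ≃ₗ[K] V) (h z z.2)
  have hev : ∃ ζ : K, ζ ≠ 1 ∧ Module.End.eigenspace Z ζ ≠ ⊥ := by
    by_contra hcon
    push Not at hcon
    apply hz1
    have h1 : Module.End.eigenspace Z 1 = ⊤ := by
      rw [eq_top_iff, ← hdiag]
      refine iSup_le fun μ => ?_
      by_cases hμ : μ = 1
      · rw [hμ]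
      · rw [← hZ, hcon μ hμ]; exact bot_le
    apply Subtype.ext
    apply LinearEquiv.ext
    intro v
    have h2 : v ∈ Module.End.eigenspace Z 1 := by rw [h1]; exact Submodule.mem_top
    rw [Module.End.mem_eigenspace_iff, one_smul] at h2
    exact h2
  obtain ⟨ζ, hζ1, hζ⟩ := hev
  set W : Submodule K V := Module.End.eigenspace Z ζ with hW
  have hWmem : ∀ v, v ∈ W ↔ Z v = ζ • v := fun v => Module.End.mem_eigenspace_iff
  have hXW : ∀ v ∈ W, X v ∈ W := by
    intro v hv
    rw [hWmem] at hv ⊢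
    rw [vzx, hv, map_smul]
  have hYW : ∀ v ∈ W, Y v ∈ W := by
    intro v hv
    rw [hWmem] at hv ⊢
    rw [vzy, hv, map_smul]
  have hfin : Module.Finite K V := inferInstance
  set X' := X.restrict hXW with hX'
  set Y' := Y.restrict hYW with hY'
  have hXY : X' ∘ₗ Y' = ζ • (Y' ∘ₗ X') := by
    ext w
    show X (Y w) = ζ • Y (X w)
    rw [vxy]
    exact (hWmem _).1 (hYW _ (hXW _ w.2))
  have hdet := congrArg LinearMap.det hXY
  rw [LinearMap.det_comp, LinearMap.det_smul, LinearMap.det_comp] at hdet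
  have hdX : LinearMap.det X' ≠ 0 := by
    intro h0
    have h1 := LinearMap.bot_lt_ker_of_det_eq_zero h0
    apply h1.ne'
    rw [LinearMap.ker_eq_bot]
    intro a b hab'
    apply Subtype.ext
    have h2 : X a = X b := congrArg Subtype.val hab'
    exact (x : V ≃ₗ[K] V).injective h2
  have hdY : LinearMap.det Y' ≠ 0 := by
    intro h0
    have h1 := LinearMap.bot_lt_ker_of_det_eq_zero h0
    apply h1.ne'
    rw [LinearMap.ker_eq_bot]
    intro a b hab'
    apply Subtype.ext
    have h2 : Y a = Y b := congrArg Subtype.val hab'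
    exact (y : V ≃ₗ[K] V).injective h2
  have hζd : ζ ^ Module.finrank K W = 1 := by
    have h1 : LinearMap.det X' * LinearMap.det Y' ≠ 0 := mul_ne_zero hdX hdY
    have h2 : ζ ^ Module.finrank K W * (LinearMap.det X' * LinearMap.det Y') =
        1 * (LinearMap.det X' * LinearMap.det Y') := by
      rw [one_mul, mul_comm (LinearMap.det X')]
      rw [← hdet]; ring
    exact mul_right_cancel₀ h1 h2
  -- the order
  obtain ⟨w, hwW, hw0⟩ := Submodule.exists_mem_ne_zero_of_ne_bot hζ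
  have hpow : ∀ n : ℕ, ((z ^ n : A) : V ≃ₗ[K] V) w = ζ ^ n • w := by
    intro n
    induction n with
    | zero => simp
    | succ n ih =>
      have h1 : ((z ^ (n + 1) : A) : V ≃ₗ[K] V) w = Z (((z ^ n : A) : V ≃ₗ[K] V) w) := by
        rw [pow_succ']; rfl
      rw [h1, ih, map_smul, (hWmem w).1 hwW, smul_smul, ← pow_succ]
  have hζm : ζ ^ orderOf z = 1 := by
    have h1 := hpow (orderOf z)
    rw [pow_orderOf_eq_one] at h1
    have h2 : w = ζ ^ orderOf z • w := h1
    have h3 : (ζ ^ orderOf z - 1) • w = 0 := by rw [sub_smul, one_smul, ← h2, sub_self]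
    rcases smul_eq_zero.1 h3 with h4 | h4
    · exact sub_eq_zero.1 h4
    · exact absurd h4 hw0
  have ho : orderOf ζ ≠ 1 := by
    intro h1
    exact hζ1 (orderOf_eq_one_iff.1 h1)
  obtain ⟨s, hsp, hsd⟩ := Nat.exists_prime_and_dvd ho
  have h1 : s ∣ Nat.card A :=
    (hsd.trans (orderOf_dvd_of_pow_eq_one hζm)).trans (orderOf_dvd_natCard z)
  have h2 : s ∣ Module.finrank K W := hsd.trans (orderOf_dvd_of_pow_eq_one hζd)
  have h3 : 0 < Module.finrank K W := by
    have : Nontrivial W := (Submodule.nontrivial_iff_ne_bot).2 hζ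
    exact Module.finrank_pos
  have h4 := Nat.le_of_dvd h3 h2
  have h5 : Module.finrank K W ≤ Module.finrank K V := Submodule.finrank_le W
  have h6 := hs s hsp h1
  omega

end Pool.Agent.Helper75.CV
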