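import Pool.Agent.Helper75.CV.Defs

set_option autoImplicit false

namespace Pool.Agent.Helper75.CV



/-- restriction to an invariant submodule -/
def resHom {K V : Type} [Field K] [AddCommGroup V] [Module K V]
    (Y : Subgroup (V ≃ₗ[K] V)) (F : Submodule K V)
    (hF : ∀ y ∈ Y, ∀ w ∈ F, y w ∈ F) : Y →* Module.End K F where
  toFun y := (y.1.toLinearMap).restrict (fun w hw => hF y.1 y.2 w hw)
  map_one' := by
    apply LinearMap.ext
    intro w
    apply Subtype.ext
    rfl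
  map_mul' x y := by
    apply LinearMap.ext
    intro w
    apply Subtype.ext
    rfl

theorem resHom_coe {K V : Type} [Field K] [AddCommGroup V] [Module K V]
    (Y : Subgroup (V ≃ₗ[K] V)) (F : Submodule K V)
    (hF : ∀ y ∈ Y, ∀ w ∈ F, y w ∈ F) (y : Y) (w : F) :
    ((resHom Y F hF y w : F) : V) = (y : V ≃ₗ[K] V) w := rfl

theorem det_hom {K V : Type} [Field K] [Fintype K] [AddCommGroup V] [Module K V] [Finite V]
    (Y : Subgroup (V ≃ₗ[K] V)) (F : Submodule K V)
    (hF : ∀ y ∈ Y, ∀ w ∈ F, y w ∈ F) : ∃ d : Y →* Kˣ,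
      (∀ (y : Y) (μ : K), (∀ w ∈ F, (y : V ≃ₗ[K] V) w = μ • w) →
        (d y : K) = μ ^ Module.finrank K F) ∧
      (∀ (y : Y) (ζ : K) (f : V), f ∈ F → f ≠ 0 → (y : V ≃ₗ[K] V) f = ζ • f →
        (∀ v, (y : V ≃ₗ[K] V) v - v ∈ K ∙ f) → (d y : K) = ζ) := by
  haveI : Module.Finite K F := Module.Finite.of_finite
  refine ⟨((LinearMap.det : Module.End K F →* K).comp (resHom Y F hF)).toHomUnits, ?_, ?_⟩
  · intro y μ h
    rw [MonoidHom.coe_toHomUnits, MonoidHom.comp_apply]
    have e : resHom Y F hF y = μ • (LinearMap.id : F →ₗ[K] F) := by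
      apply LinearMap.ext
      intro w
      apply Subtype.ext
      rw [resHom_coe, h w w.2]
      rfl
    rw [e, LinearMap.det_smul, LinearMap.det_id, mul_one]
  · intro y ζ f hf hf0 hyf hy
    rw [MonoidHom.coe_toHomUnits, MonoidHom.comp_apply]
    obtain ⟨L, hL⟩ : ∃ L : F →ₗ[K] (K ∙ f), ∀ w : F, ((L w : K ∙ f) : V) = (y : V ≃ₗ[K] V) w - w :=
      ⟨LinearMap.codRestrict (K ∙ f)
        (((y.1.toLinearMap) - LinearMap.id).comp F.subtype) (fun w => hy w), fun w => rfl⟩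
    obtain ⟨ψ, hψ⟩ : ∃ ψ : F →ₗ[K] K, ∀ w : F, ψ w • f = (y : V ≃ₗ[K] V) w - w := by
      refine ⟨(LinearEquiv.toSpanNonzeroSingleton K V f hf0).symm.toLinearMap ∘ₗ L, fun w => ?_⟩
      rw [← hL w]
      have h1 := (LinearEquiv.toSpanNonzeroSingleton K V f hf0).apply_symm_apply (L w)
      exact congrArg Subtype.val h1
    have e : resHom Y F hF y = LinearMap.transvection ψ (⟨f, hf⟩ : F) := by
      apply LinearMap.ext
      intro w
      apply Subtype.ext
      rw [resHom_coe]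
      show (y : V ≃ₗ[K] V) w = (w : V) + ψ w • f
      rw [hψ w]
      abel
    rw [e, LinearMap.transvection.det]
    have h2 := hψ ⟨f, hf⟩
    have h3 : ψ ⟨f, hf⟩ = ζ - 1 := by
      apply smul_left_injective K hf0
      show ψ ⟨f, hf⟩ • f = (ζ - 1) • f
      rw [h2, sub_smul, one_smul, ← hyf]
    rw [h3]
    ring

end Pool.Agent.Helper75.CV
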