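import Pool.Agent.Helper75.CV.Defs

set_option autoImplicit false

namespace Pool.Agent.Helper75.CV



theorem exists_t {K V : Type} [Field K] [Fintype K] [AddCommGroup V] [Module K V] [Finite V]
    (q : ℕ) [CharP K q] (A : Subgroup (V ≃ₗ[K] V)) (W W' : Submodule K V)
    (hc : IsCompl W W') (h2 : 2 ≤ Module.finrank K W)
    (hW' : ∀ a ∈ A, ∀ w ∈ W', a w ∈ W') (hW : ∀ a ∈ A, ∃ μ : K, ∀ w ∈ W, a w = μ • w) :
    ∃ t : V ≃ₗ[K] V, (∀ a ∈ A, a * t = t * a) ∧ t ^ q = 1 ∧ (∃ w ∈ W, t w ≠ w) ∧
      ∀ p : V ≃ₗ[K] V, (∀ w ∈ W, p w = w) → (∀ w ∈ W', p w ∈ W') → p * t = t * p := by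
  have hnt : Nontrivial W := Module.nontrivial_of_finrank_pos (R := K) (by omega)
  obtain ⟨f, hf⟩ := exists_ne (0 : W)
  have hlt : Submodule.span K {f} < ⊤ := by
    rw [lt_top_iff_ne_top]
    intro h
    have h1 := finrank_span_singleton (K := K) hf
    rw [h, finrank_top] at h1
    omega
  obtain ⟨φ0, hφ0, hker⟩ := Submodule.exists_le_ker_of_lt_top _ hlt
  have hφf : φ0 f = 0 := hker (Submodule.mem_span_singleton_self f)
  obtain ⟨g, hg⟩ : ∃ g, φ0 g ≠ 0 := by
    by_contra hcon
    push Not at hcon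
    exact hφ0 (LinearMap.ext hcon)
  set φ : V →ₗ[K] K := φ0 ∘ₗ (Submodule.projectionOnto W W' hc) with hφ
  have hφW : ∀ w : W, φ (w : V) = φ0 w := by
    intro w
    rw [hφ, LinearMap.comp_apply, Submodule.projectionOnto_apply_left]
  have hφW' : ∀ w ∈ W', φ w = 0 := by
    intro w hw
    rw [hφ, LinearMap.comp_apply, Submodule.projectionOnto_apply_of_mem_right hc hw, map_zero]
  have hφf' : φ (f : V) = 0 := by rw [hφW, hφf]
  set t : V ≃ₗ[K] V := LinearEquiv.ofLinearMap
    (LinearMap.id + φ.smulRight (f : V)) (LinearMap.id - φ.smulRight (f : V))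
    (by
      apply LinearMap.ext
      intro v
      simp [hφf'])
    (by
      apply LinearMap.ext
      intro v
      simp [hφf']) with ht
  have htv : ∀ v, t v = v + φ v • (f : V) := by
    intro v
    simp [ht]
  have hcomm : ∀ (b : V ≃ₗ[K] V) (μ : K), (∀ w ∈ W, b w = μ • w) → (∀ w ∈ W', b w ∈ W') →
      b * t = t * b := by
    intro b μ hb hb'
    apply LinearEquiv.ext
    intro v
    have hv : v ∈ W ⊔ W' := by rw [hc.sup_eq_top]; exact Submodule.mem_top
    obtain ⟨w, hw, w', hw', rfl⟩ := Submodule.mem_sup.mp hv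
    have e1 : φ (b (w + w')) = μ * φ (w + w') := by
      rw [map_add, map_add, map_add, hb w hw, map_smul, hφW' _ (hb' w' hw'), hφW' w' hw']
      simp
    rw [LinearEquiv.mul_apply, LinearEquiv.mul_apply, htv, htv, e1, map_add b _ (_ • _), map_smul,
      hb f f.2, smul_smul]
    congr 2
    ring
  refine ⟨t, ?_, ?_, ⟨(g : V), g.2, ?_⟩, ?_⟩
  · intro a ha
    obtain ⟨μ, hμ⟩ := hW a ha
    exact hcomm a μ hμ (hW' a ha)
  · have hpow : ∀ (n : ℕ) (v : V), (t ^ n) v = v + ((n : K) * φ v) • (f : V) := by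
      intro n
      induction n with
      | zero => intro v; simp
      | succ n ih =>
        intro v
        rw [pow_succ, LinearEquiv.mul_apply, ih, htv, map_add, map_smul, hφf']
        rw [smul_zero, add_zero, add_assoc, ← add_smul]
        congr 2
        push_cast
        ring
    apply LinearEquiv.ext
    intro v
    rw [hpow, CharP.cast_eq_zero, zero_mul, zero_smul, add_zero]
    rfl
  · rw [htv]
    intro h
    rw [add_eq_left, smul_eq_zero] at h
    rcases h with h | h
    · exact hg (by rw [← hφW]; exact h)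
    · exact hf (by exact_mod_cast h)
  · intro p hp hp'
    exact hcomm p 1 (fun w hw => by rw [hp w hw, one_smul]) hp'

end Pool.Agent.Helper75.CV
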