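import Pool.Agent.Helper75.CV.Defs

set_option autoImplicit false

namespace Pool.Agent.Helper75.CV



theorem exists_y {K V : Type} [Field K] [AddCommGroup V] [Module K V]
    (A : Subgroup (V ≃ₗ[K] V)) (W W' : Submodule K V) (hc : IsCompl W W')
    (hW' : ∀ a ∈ A, ∀ w ∈ W', a w ∈ W') (hW : ∀ a ∈ A, ∃ μ : K, ∀ w ∈ W, a w = μ • w)
    (f : V) (hf : f ∈ W) (hf0 : f ≠ 0) (ζ : K) (hζ : ζ ≠ 0) :
    ∃ y : V ≃ₗ[K] V, (∀ a ∈ A, a * y = y * a) ∧ y f = ζ • f ∧ ∀ v, y v - v ∈ K ∙ f := by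
  classical
  obtain ⟨ψ, hψ⟩ : ∃ ψ : W →ₗ[K] K, ψ ⟨f, hf⟩ = 1 := by
    have hne : (⟨f, hf⟩ : W) ≠ 0 := fun h => hf0 (congrArg Subtype.val h)
    obtain ⟨g, hg⟩ := (LinearEquiv.coord K W ⟨f, hf⟩ hne).toLinearMap.exists_extend
    refine ⟨g, ?_⟩
    have h1 := LinearMap.congr_fun hg ⟨⟨f, hf⟩, Submodule.mem_span_singleton_self _⟩
    have h2 := LinearEquiv.coord_self K W ⟨f, hf⟩ hne
    exact h1.trans h2
  obtain ⟨phi, hphi1, hphi2⟩ : ∃ phi : V →ₗ[K] K, (∀ w : W, phi w = ψ w) ∧ ∀ w ∈ W', phi w = 0 := by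
    refine ⟨ψ ∘ₗ (Submodule.projectionOnto W W' hc), fun w => ?_, fun w hw => ?_⟩
    · simp
    · have h1 : Submodule.projectionOnto W W' hc w = 0 := by
        simpa using hw
      rw [LinearMap.comp_apply, h1, map_zero]
  have hf1 : phi f = 1 := by rw [← hψ]; exact hphi1 ⟨f, hf⟩
  have hcomm : ∀ a ∈ A, ∀ μ : K, (∀ w ∈ W, a w = μ • w) → ∀ v, phi (a v) = μ * phi v := by
    intro a ha μ hμ v
    obtain ⟨w, hw, w', hw', rfl⟩ : ∃ w ∈ W, ∃ w' ∈ W', w + w' = v := by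
      have h1 : v ∈ W ⊔ W' := by rw [hc.sup_eq_top]; trivial
      exact Submodule.mem_sup.mp h1
    rw [map_add, map_add, map_add, hμ w hw, hphi2 _ (hW' a ha w' hw'), hphi2 w' hw', map_smul]
    simp
  obtain ⟨T, hT⟩ : ∃ T : K → V →ₗ[K] V, ∀ c v, T c v = v + (c * phi v) • f := by
    refine ⟨fun c => LinearMap.id + (LinearMap.toSpanSingleton K V f) ∘ₗ (c • phi), fun c v => ?_⟩
    simp [LinearMap.toSpanSingleton_apply]
  have hTT : ∀ c c' : K, c + c' + c * c' = 0 → T c ∘ₗ T c' = LinearMap.id := by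
    intro c c' hcc
    ext v
    rw [LinearMap.comp_apply, hT, hT, map_add, map_smul, hf1, LinearMap.id_apply]
    have h1 : v + (c' * phi v) • f + (c * (phi v + (c' * phi v) • (1:K))) • f =
        v + ((c + c' + c * c') * phi v) • f := by
      rw [smul_eq_mul, add_assoc, ← add_smul]
      congr 2
      ring
    rw [h1, hcc, zero_mul, zero_smul, add_zero]
  refine ⟨LinearEquiv.ofLinearMap (T (ζ - 1)) (T (ζ⁻¹ - 1)) (hTT _ _ ?_) (hTT _ _ ?_), ?_, ?_, ?_⟩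
  · field_simp
    ring
  · field_simp
    ring
  · intro a ha
    obtain ⟨μ, hμ⟩ := hW a ha
    ext v
    rw [LinearEquiv.mul_apply, LinearEquiv.mul_apply, LinearEquiv.coe_ofLinearMap, hT, hT, map_add, map_smul, hμ f hf, hcomm a ha μ hμ v, smul_smul]
    congr 2
    ring
  · rw [LinearEquiv.coe_ofLinearMap, hT, hf1, mul_one, sub_smul, one_smul]
    abel
  · intro v
    rw [LinearEquiv.coe_ofLinearMap, hT, add_sub_cancel_left]
    exact Submodule.smul_mem _ _ (Submodule.mem_span_singleton_self f)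

end Pool.Agent.Helper75.CV
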