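import Pool.Agent.Helper75.CV.Defs

set_option autoImplicit false

namespace Pool.Agent.Helper75.CV



theorem fixed_ne {K V : Type} [Field K] [Fintype K] [AddCommGroup V] [Module K V] [Finite V]
    (q : ℕ) (hq : q.Prime) [CharP K q] (P : Subgroup (V ≃ₗ[K] V))
    (hP : IsPGroup q P) (W : Submodule K V) (hW : ∀ x ∈ P, ∀ w ∈ W, x w ∈ W) (h0 : W ≠ ⊥) :
    ∃ w ∈ W, w ≠ 0 ∧ ∀ x ∈ P, x w = w := by
  classical
  have hqf : Fact q.Prime := ⟨hq⟩
  obtain ⟨w0, hw0, hne⟩ := Submodule.exists_mem_ne_zero_of_ne_bot h0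
  letI act : MulAction P W :=
    { smul := fun x w => ⟨x.1 w.1, hW x.1 x.2 w.1 w.2⟩
      one_smul := fun w => Subtype.ext rfl
      mul_smul := fun x y w => Subtype.ext rfl }
  have hfin : Finite W := inferInstance
  have hdvd : q ∣ Nat.card W := by
    have hord : addOrderOf (⟨w0, hw0⟩ : W) = q := by
      apply addOrderOf_eq_prime
      · apply Subtype.ext
        show q • w0 = 0
        have h1 : ((q : ℕ) : K) • w0 = q • w0 := Nat.cast_smul_eq_nsmul K q w0
        rw [← h1, CharP.cast_eq_zero K q, zero_smul]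
      · intro h
        exact hne (congrArg Subtype.val h)
    rw [← hord]
    exact addOrderOf_dvd_natCard _
  have h0fix : (0 : W) ∈ MulAction.fixedPoints P W := by
    intro x
    apply Subtype.ext
    show x.1 (0 : V) = 0
    exact map_zero _
  obtain ⟨b, hb, hb0⟩ := hP.exists_fixed_point_of_prime_dvd_card_of_fixed_point W hdvd h0fix
  refine ⟨b.1, b.2, fun h => hb0 (Subtype.ext h.symm), fun x hx => ?_⟩
  have := hb ⟨x, hx⟩
  exact congrArg Subtype.val this

end Pool.Agent.Helper75.CV
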