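import Pool.Agent.Helper75.CV.Defs

set_option autoImplicit false

namespace Pool.Agent.Helper75.CV



theorem frattini_elt {G : Type} [Group G] [Finite G] (q : ℕ) (hq : q.Prime) (Y P : Subgroup G)
    (hPY : P ≤ Y) (hP : IsPGroup q P)
    (hmax : ∀ x ∈ Y, (∀ p ∈ P, x * p * x⁻¹ ∈ P) → ∀ k : ℕ, orderOf x = q ^ k → x ∈ P)
    {M : Type} [CommGroup M] (d : Y →* M) (hM : ∀ m : M, ∀ k : ℕ, orderOf m = q ^ k → m = 1)
    (y : Y) : ∃ n : Y, (∀ p ∈ P, (n : G) * p * (n : G)⁻¹ ∈ P) ∧ d n = d y := by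
  classical
  have : Fact q.Prime := ⟨hq⟩
  have hP' : IsPGroup q (P.subgroupOf Y) := hP.comap_subtype
  obtain ⟨S, hS⟩ := hP'.exists_le_sylow
  -- `P' = S`
  have hSP : (S : Subgroup Y) ≤ P.subgroupOf Y := by
    by_contra hcon
    have : Group.IsNilpotent S := S.isPGroup'.isNilpotent
    have hlt : (P.subgroupOf Y).subgroupOf (S : Subgroup Y) < ⊤ := by
      rw [lt_top_iff_ne_top]
      intro h
      apply hcon
      rwa [Subgroup.subgroupOf_eq_top] at h
    have hnc := Group.normalizerCondition_of_isNilpotent (G := S) _ hlt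
    obtain ⟨x, hx1, hx2⟩ := SetLike.exists_of_lt hnc
    apply hx2
    rw [Subgroup.mem_subgroupOf, Subgroup.mem_subgroupOf]
    obtain ⟨k, hk⟩ := (IsPGroup.iff_orderOf.1 S.isPGroup') x
    refine hmax (x : Y) (x : Y).2 ?_ k ?_
    · intro p hp
      have hpY : p ∈ Y := hPY hp
      have hpS : (⟨p, hpY⟩ : Y) ∈ (S : Subgroup Y) := hS (by rw [Subgroup.mem_subgroupOf]; exact hp)
      have := (Subgroup.mem_normalizer_iff.1 hx1 ⟨⟨p, hpY⟩, hpS⟩).1 (by
        rw [Subgroup.mem_subgroupOf, Subgroup.mem_subgroupOf]; exact hp)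
      rw [Subgroup.mem_subgroupOf, Subgroup.mem_subgroupOf] at this
      simpa using this
    · rw [← hk, Subgroup.orderOf_coe, Subgroup.orderOf_coe]
  have hker : (S : Subgroup Y) ≤ d.ker := by
    intro x hx
    obtain ⟨k, hk⟩ := (IsPGroup.iff_orderOf.1 S.isPGroup') ⟨x, hx⟩
    have hk' : orderOf x = q ^ k := by
      rw [← hk]; exact Subgroup.orderOf_coe (⟨x, hx⟩ : (S : Subgroup Y))
    have hdvd : orderOf (d x) ∣ q ^ k := hk' ▸ orderOf_map_dvd d x
    obtain ⟨j, -, hj⟩ := (Nat.dvd_prime_pow hq).1 hdvd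
    exact hM _ j hj
  have htop := Sylow.normalizer_sup_eq_top' (N := d.ker) S hker
  have hy : y ∈ (⊤ : Subgroup Y) := Subgroup.mem_top y
  rw [← htop] at hy
  obtain ⟨n, hn, z, hz, rfl⟩ := Subgroup.mem_sup_of_normal_right.1 hy
  refine ⟨n, ?_, ?_⟩
  · intro p hp
    have hpY : p ∈ Y := hPY hp
    have hpS : (⟨p, hpY⟩ : Y) ∈ (S : Subgroup Y) := hS (by rw [Subgroup.mem_subgroupOf]; exact hp)
    have := hSP ((Subgroup.mem_normalizer_iff.1 hn _).1 hpS)
    rw [Subgroup.mem_subgroupOf] at this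
    simpa using this
  · rw [map_mul, (MonoidHom.mem_ker).1 hz, mul_one]

end Pool.Agent.Helper75.CV
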