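import Pool.Agent.Helper75.CV.Defs

set_option autoImplicit false

namespace Pool.Agent.Helper75.CV



theorem good_mem_aux (π : Set ℕ) {G : Type} [Group G] [Finite G] (H : Subgroup G) (hH : Good π H) :
    ∀ m : ℕ, ∀ y : G, (∀ h ∈ H, y * h * y⁻¹ ∈ H) →
      (∀ p : ℕ, p.Prime → p ∣ orderOf y → p ∈ π) → orderOf y = m → y ∈ H := by
  have hnorm : ∀ (y : G), (∀ h ∈ H, y * h * y⁻¹ ∈ H) → ∀ n : ℕ, ∀ h ∈ H,
      y ^ n * h * (y ^ n)⁻¹ ∈ H := by
    intro y hy n
    induction n with
    | zero => intro h hh; simpa using hh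
    | succ n ih =>
      intro h hh
      have := hy _ (ih h hh)
      have e : y ^ (n + 1) * h * (y ^ (n + 1))⁻¹ = y * (y ^ n * h * (y ^ n)⁻¹) * y⁻¹ := by
        rw [pow_succ']; group
      rw [e]; exact this
  intro m
  induction m using Nat.recOnPosPrimePosCoprime with
  | prime_pow p n hp hn =>
    intro y hy ho hm
    refine hH.norm y hy p (ho p hp ?_) n hm
    rw [hm]
    exact dvd_pow_self p (by omega)
  | zero =>
    intro y hy ho hm
    exact absurd hm (orderOf_pos y).ne'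
  | one =>
    intro y hy ho hm
    rw [orderOf_eq_one_iff] at hm
    rw [hm]; exact H.one_mem
  | coprime a b ha hb hab iha ihb =>
    intro y hy ho hm
    have oa : orderOf (y ^ a) = b := by
      rw [orderOf_pow_of_dvd (by omega) (by rw [hm]; exact dvd_mul_right a b), hm]
      exact Nat.mul_div_cancel_left b (by omega)
    have ob : orderOf (y ^ b) = a := by
      rw [orderOf_pow_of_dvd (by omega) (by rw [hm]; exact dvd_mul_left b a), hm]
      exact Nat.mul_div_cancel a (by omega)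
    have h1 : y ^ a ∈ H := ihb (y ^ a) (hnorm y hy a)
      (fun p hp hd => ho p hp (hd.trans (orderOf_pow_dvd a))) oa
    have h2 : y ^ b ∈ H := iha (y ^ b) (hnorm y hy b)
      (fun p hp hd => ho p hp (hd.trans (orderOf_pow_dvd b))) ob
    have e : y = (y ^ a) ^ (Nat.gcdA a b) * (y ^ b) ^ (Nat.gcdB a b) := by
      have hg := Nat.gcd_eq_gcd_ab a b
      rw [Nat.Coprime.gcd_eq_one hab] at hg
      calc y = y ^ ((1 : ℕ) : ℤ) := by simp
        _ = y ^ ((a : ℤ) * Nat.gcdA a b + (b : ℤ) * Nat.gcdB a b) := by rw [hg]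
        _ = _ := by rw [zpow_add, zpow_mul, zpow_mul, zpow_natCast, zpow_natCast]
    rw [e]
    exact H.mul_mem (H.zpow_mem h1 _) (H.zpow_mem h2 _)

theorem good_mem (π : Set ℕ) {G : Type} [Group G] [Finite G] (H : Subgroup G) (hH : Good π H)
    (x : G) (hx : ∀ h ∈ H, x * h * x⁻¹ ∈ H)
    (ho : ∀ p : ℕ, p.Prime → p ∣ orderOf x → p ∈ π) : x ∈ H :=
  good_mem_aux π H hH _ x hx ho rfl

end Pool.Agent.Helper75.CV
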