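import Pool.Agent.Helper75.CV.Defs

set_option autoImplicit false

namespace Pool.Agent.Helper75.CV



theorem rpart {G M : Type} [Group G] [Finite G] [Group M] (r : ℕ) (hr : r.Prime) (d : G →* M)
    (n : G) (h : d n ^ r = 1) : ∃ k : ℕ, (∃ j : ℕ, orderOf (n ^ k) = r ^ j) ∧
      d (n ^ k) = d n := by
  have hm0 : orderOf n ≠ 0 := (orderOf_pos n).ne'
  obtain ⟨a, c, hrc, hm⟩ := Nat.exists_eq_pow_mul_and_not_dvd hm0 r hr.ne_one
  have hco : Nat.Coprime r c := (Nat.Prime.coprime_iff_not_dvd hr).2 hrc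
  obtain ⟨k, hk1, hk0⟩ := Nat.chineseRemainder hco 1 0
  refine ⟨k, ?_, ?_⟩
  · have hck : c ∣ k := (Nat.modEq_zero_iff_dvd).1 hk0
    have h1 : (n ^ k) ^ (r ^ a) = 1 := by
      rw [← pow_mul]
      apply orderOf_dvd_iff_pow_eq_one.1
      rw [hm, mul_comm]
      exact Nat.mul_dvd_mul_right hck _
    obtain ⟨j, _, hj⟩ := (Nat.dvd_prime_pow hr).1 (orderOf_dvd_of_pow_eq_one h1)
    exact ⟨j, hj⟩
  · rw [map_pow]
    have h2 : orderOf (d n) ∣ r := orderOf_dvd_of_pow_eq_one h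
    have h3 : k ≡ 1 [MOD orderOf (d n)] := Nat.ModEq.of_dvd h2 hk1
    calc (d n) ^ k = (d n) ^ 1 := pow_eq_pow_iff_modEq.2 h3
      _ = d n := pow_one _

end Pool.Agent.Helper75.CV
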