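import Pool.Agent.Helper75.CV.Defs
import Pool.Agent.Helper75.CV.P_good_mem
import Pool.Agent.Helper75.CV.P_exists_y
import Pool.Agent.Helper75.CV.P_exists_t
import Pool.Agent.Helper75.CV.P_det_hom
import Pool.Agent.Helper75.CV.P_fixed_ne
import Pool.Agent.Helper75.CV.P_frattini_elt
import Pool.Agent.Helper75.CV.P_rpart

set_option autoImplicit false

namespace Pool.Agent.Helper75.CV



theorem case_i_norm {G : Type} [Group G] {q : ℕ} {H P A : Subgroup G} (hs : Split q H P A)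
    (x : G) (hxA : ∀ a ∈ A, a * x = x * a) (hxP : ∀ p ∈ P, x * p * x⁻¹ ∈ P) :
    ∀ h ∈ H, x * h * x⁻¹ ∈ H := by
  intro h hh
  obtain ⟨p, hp, a, ha, rfl⟩ := hs.prod h hh
  have h1 : x * (p * a) * x⁻¹ = (x * p * x⁻¹) * a := by
    have h2 : a * x⁻¹ = x⁻¹ * a := by
      rw [mul_inv_eq_iff_eq_mul, mul_assoc, hxA a ha, inv_mul_cancel_left]
    calc x * (p * a) * x⁻¹ = x * p * (a * x⁻¹) := by simp only [mul_assoc]
      _ = x * p * (x⁻¹ * a) := by rw [h2]
      _ = (x * p * x⁻¹) * a := by simp only [mul_assoc]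
  rw [h1]
  exact H.mul_mem (hs.hP (hxP p hp)) (hs.hA ha)

theorem case_i_mem {G : Type} [Group G] [Finite G] {π : Set ℕ} {q : ℕ} {H P A : Subgroup G}
    (hH : Good π H) (hs : Split q H P A) (x : G) (hxA : ∀ a ∈ A, a * x = x * a)
    (hxP : ∀ p ∈ P, x * p * x⁻¹ ∈ P) (s : ℕ) (hsp : s.Prime) (hsπ : s ∈ π) (k : ℕ)
    (ho : orderOf x ∣ s ^ k) : x ∈ H := by
  apply good_mem π H hH x (case_i_norm hs x hxA hxP)
  intro p hp hpd
  have h1 : p = s := (Nat.prime_dvd_prime_iff_eq hp hsp).mp (hp.dvd_of_dvd_pow (hpd.trans ho))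
  rw [h1]
  exact hsπ

theorem case_i {K V : Type} [Field K] [Fintype K] [AddCommGroup V] [Module K V] [Finite V]
    (q : ℕ) (hq : q.Prime) [CharP K q] (π : Set ℕ) (hπ : ∀ p ∈ π, p.Prime)
    (hqπ : q ∈ π) (hlt : ∀ s ∈ π, s ≠ q → Module.finrank K V < s)
    (r : ℕ) (hr : r ∈ π) (hrq : r ≠ q) (hrK : r ∣ Fintype.card K - 1)
    (H P A : Subgroup (V ≃ₗ[K] V)) (hH : Good π H) (hs : Split q H P A)
    (hA : ∀ a ∈ A, ∀ b ∈ A, a * b = b * a)
    (W W' : Submodule K V) (hc : IsCompl W W') (h2 : 2 ≤ Module.finrank K W)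
    (hg : ∀ g : V ≃ₗ[K] V, (∀ a ∈ A, a * g = g * a) → (∀ w ∈ W, g w ∈ W) ∧ ∀ w ∈ W', g w ∈ W')
    (hW : ∀ a ∈ A, ∃ μ : K, ∀ w ∈ W, a w = μ • w) : False := by
  classical
  have hfinG : Finite (V ≃ₗ[K] V) :=
    Finite.of_injective (fun e : V ≃ₗ[K] V => (e : V → V)) DFunLike.coe_injective
  have hrp : r.Prime := hπ r hr
  have hPA : ∀ x ∈ P, ∀ a ∈ A, a * x = x * a := fun x hx a ha => (hs.comm x hx a ha).symm
  have hPW : ∀ x ∈ P, ∀ w ∈ W, x w ∈ W := fun x hx => (hg x (hPA x hx)).1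
  have hPW' : ∀ x ∈ P, ∀ w ∈ W', x w ∈ W' := fun x hx => (hg x (hPA x hx)).2
  have hAW' : ∀ a ∈ A, ∀ w ∈ W', a w ∈ W' := fun a ha => (hg a (fun b hb => hA b hb a ha)).2
  have hWne : W ≠ ⊥ := by
    rintro rfl
    rw [finrank_bot] at h2
    omega
  obtain ⟨f0, hf0W, hf0, hf0P⟩ := fixed_ne q hq P hs.pP W hPW hWne
  let F : Submodule K V :=
    { carrier := {w | w ∈ W ∧ ∀ p ∈ P, p w = w}
      add_mem' := fun {a b} ha hb => ⟨W.add_mem ha.1 hb.1, fun p hp => by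
        rw [map_add, ha.2 p hp, hb.2 p hp]⟩
      zero_mem' := ⟨W.zero_mem, fun p _ => map_zero p⟩
      smul_mem' := fun c x hx => ⟨W.smul_mem c hx.1, fun p hp => by
        rw [map_smul, hx.2 p hp]⟩ }
  have hFW : F ≤ W := fun w hw => hw.1
  have hFlt : F < W := by
    refine lt_of_le_of_ne hFW ?_
    intro hEq
    have htriv : ∀ w ∈ W, ∀ p ∈ P, p w = w := fun w hw => by
      rw [← hEq] at hw
      exact hw.2
    obtain ⟨t, htA, htq, ⟨w, hwW, hwt⟩, htP⟩ := exists_t q A W W' hc h2 hAW' hW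
    have htP' : ∀ p ∈ P, t * p * t⁻¹ ∈ P := by
      intro p hp
      have h1 := htP p (fun w hw => htriv w hw p hp) (hPW' p hp)
      rw [← h1, mul_inv_cancel_right]
      exact hp
    have hod : orderOf t ∣ q ^ 1 := by
      rw [pow_one]
      exact orderOf_dvd_of_pow_eq_one htq
    have htH : t ∈ H := case_i_mem hH hs t htA htP' q hq hqπ 1 hod
    obtain ⟨k, -, hk⟩ := (Nat.dvd_prime_pow hq).mp hod
    exact hwt (htriv w hwW t (hs.memP t htH k hk))
  have hf0F : f0 ∈ F := ⟨hf0W, hf0P⟩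
  let Y : Subgroup (V ≃ₗ[K] V) :=
    { carrier := {y | (∀ a ∈ A, a * y = y * a) ∧ ∀ w ∈ F, y w ∈ F}
      mul_mem' := fun {x y} hx hy => ⟨fun a ha => by
        rw [← mul_assoc, hx.1 a ha, mul_assoc, hy.1 a ha, mul_assoc],
        fun w hw => hx.2 _ (hy.2 w hw)⟩
      one_mem' := ⟨fun a _ => by rw [mul_one, one_mul], fun w hw => hw⟩
      inv_mem' := fun {y} hy => ⟨fun a ha => by
          have h1 := hy.1 a ha
          rw [mul_inv_eq_iff_eq_mul, mul_assoc, h1, inv_mul_cancel_left], fun w hw => by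
          have hpow : ∀ n : ℕ, ∀ w ∈ F, (y ^ n) w ∈ F := by
            intro n
            induction n with
            | zero => intro w hw; exact hw
            | succ n ih => intro w hw; rw [pow_succ]; exact ih _ (hy.2 w hw)
          have hinv : y⁻¹ = y ^ (orderOf y - 1) := by
            rw [inv_eq_iff_mul_eq_one, ← pow_succ', Nat.sub_add_cancel (orderOf_pos y),
              pow_orderOf_eq_one]
          rw [hinv]
          exact hpow _ w hw⟩ }
  have hPY : P ≤ Y := fun p hp => ⟨hPA p hp, fun w hw => by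
    rw [hw.2 p hp]
    exact hw⟩
  obtain ⟨d1, hd1a, hd1b⟩ := det_hom Y F (fun y hy => hy.2)
  obtain ⟨d2, hd2a, hd2b⟩ := det_hom Y W (fun y hy => (hg y hy.1).1)
  have : Fact r.Prime := ⟨hrp⟩
  have : Fact q.Prime := ⟨hq⟩
  obtain ⟨ζ, hζ⟩ := exists_prime_orderOf_dvd_card (G := Kˣ) r (by
    rw [Fintype.card_units]
    exact hrK)
  have hζr : ζ ^ r = 1 := by
    have h1 := pow_orderOf_eq_one ζ
    rwa [hζ] at h1
  obtain ⟨y, hyA, hyf, hyv⟩ := exists_y A W W' hc hAW' hW f0 hf0W hf0 (ζ : K) ζ.ne_zero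
  have hyY : y ∈ Y := ⟨hyA, fun w hw => by
    have h1 : y w = w + (y w - w) := by abel
    rw [h1]
    have h2 : (K ∙ f0) ≤ F := by
      rw [Submodule.span_singleton_le_iff_mem]
      exact hf0F
    exact F.add_mem hw (h2 (hyv w))⟩
  have hd1y : d1 ⟨y, hyY⟩ = ζ := Units.ext (hd1b ⟨y, hyY⟩ ζ f0 hf0F hf0 hyf hyv)
  have hd2y : d2 ⟨y, hyY⟩ = ζ := Units.ext (hd2b ⟨y, hyY⟩ ζ f0 hf0W hf0 hyf hyv)
  have hM1 : ∀ u : Kˣ, ∀ k : ℕ, u ^ (q ^ k) = 1 → u = 1 := by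
    intro u k hu
    have h1 : ((u : K) - 1) ^ (q ^ k) = 0 := by
      rw [sub_pow_char_pow, one_pow, ← Units.val_pow_eq_pow_val, hu, Units.val_one, sub_self]
    have h2 := (pow_eq_zero_iff (pow_ne_zero k hq.ne_zero)).mp h1
    exact Units.ext (sub_eq_zero.mp h2)
  have hM : ∀ m : Kˣ × Kˣ, ∀ k : ℕ, orderOf m = q ^ k → m = 1 := by
    intro m k hk
    have h1 : m ^ (q ^ k) = 1 := by rw [← hk, pow_orderOf_eq_one]
    exact Prod.ext (hM1 m.1 k (congrArg Prod.fst h1)) (hM1 m.2 k (congrArg Prod.snd h1))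
  obtain ⟨n, hnP, hdn⟩ := frattini_elt q hq Y P hPY hs.pP (fun x hx hxP k hk =>
    hs.memP x (case_i_mem hH hs x hx.1 hxP q hq hqπ k (dvd_of_eq hk)) k hk)
    (d1.prod d2) hM ⟨y, hyY⟩
  have hdy : (d1.prod d2) ⟨y, hyY⟩ = (ζ, ζ) := by
    rw [MonoidHom.prod_apply, hd1y, hd2y]
  have hdr : (d1.prod d2) n ^ r = 1 := by
    rw [hdn, hdy, Prod.pow_mk, hζr]
    rfl
  obtain ⟨k, ⟨j, hj⟩, hdk⟩ := rpart r hrp (d1.prod d2) n hdr
  obtain ⟨m, hmdef⟩ : ∃ m : Y, m = n ^ k := ⟨_, rfl⟩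
  rw [← hmdef] at hj hdk
  have hmA : ∀ a ∈ A, a * (m : V ≃ₗ[K] V) = m * a := m.2.1
  have hmP : ∀ p ∈ P, (m : V ≃ₗ[K] V) * p * (m : V ≃ₗ[K] V)⁻¹ ∈ P := by
    have hall : ∀ i : ℕ, ∀ p ∈ P,
        ((n : V ≃ₗ[K] V) ^ i) * p * ((n : V ≃ₗ[K] V) ^ i)⁻¹ ∈ P := by
      intro i
      induction i with
      | zero => intro p hp; simpa using hp
      | succ i ih =>
        intro p hp
        have h1 := hnP _ (ih p hp)
        have h2 : (n : V ≃ₗ[K] V) ^ (i + 1) * p * ((n : V ≃ₗ[K] V) ^ (i + 1))⁻¹ =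
            (n : V ≃ₗ[K] V) * ((n : V ≃ₗ[K] V) ^ i * p * ((n : V ≃ₗ[K] V) ^ i)⁻¹) *
              (n : V ≃ₗ[K] V)⁻¹ := by
          rw [pow_succ', mul_inv_rev]
          simp only [mul_assoc]
        rw [h2]
        exact h1
    intro p hp
    rw [hmdef, Subgroup.coe_pow]
    exact hall k p hp
  have hom : orderOf (m : V ≃ₗ[K] V) = r ^ j := by
    rw [Subgroup.orderOf_coe]
    exact hj
  have hmH : (m : V ≃ₗ[K] V) ∈ H := case_i_mem hH hs m hmA hmP r hrp hr j (dvd_of_eq hom)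
  have hmAm : (m : V ≃ₗ[K] V) ∈ A := by
    apply hs.memA _ hmH
    rw [hom]
    intro hqd
    exact hrq ((Nat.prime_dvd_prime_iff_eq hq hrp).mp (hq.dvd_of_dvd_pow hqd)).symm
  obtain ⟨lam, hlam⟩ := hW _ hmAm
  have hdm : d1 m = ζ ∧ d2 m = ζ := by
    have h1 : (d1.prod d2) m = (ζ, ζ) := by rw [hdk, hdn, hdy]
    exact ⟨congrArg Prod.fst h1, congrArg Prod.snd h1⟩
  have e1 : (ζ : K) = lam ^ Module.finrank K F := by
    rw [← hdm.1]
    exact hd1a m lam (fun w hw => hlam w (hFW hw))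
  have e2 : (ζ : K) = lam ^ Module.finrank K W := by
    rw [← hdm.2]
    exact hd2a m lam hlam
  have hpow : ∀ i : ℕ, ((m : V ≃ₗ[K] V) ^ i) f0 = lam ^ i • f0 := by
    intro i
    induction i with
    | zero =>
      rw [pow_zero, pow_zero, one_smul]
      rfl
    | succ i ih =>
      rw [pow_succ]
      show ((m : V ≃ₗ[K] V) ^ i) ((m : V ≃ₗ[K] V) f0) = _
      rw [hlam f0 hf0W, map_smul, ih, smul_smul, pow_succ, mul_comm]
  have hlamr : lam ^ (r ^ j) = 1 := by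
    have h1 := hpow (r ^ j)
    have h2 : ((m : V ≃ₗ[K] V) ^ (r ^ j)) = 1 := by
      rw [← hom, pow_orderOf_eq_one]
    rw [h2] at h1
    have h3 : f0 = lam ^ (r ^ j) • f0 := h1
    have h4 : (lam ^ (r ^ j) - 1) • f0 = 0 := by
      rw [sub_smul, one_smul, ← h3, sub_self]
    rcases smul_eq_zero.mp h4 with h5 | h5
    · exact sub_eq_zero.mp h5
    · exact absurd h5 hf0
  have hlt1 : Module.finrank K F < Module.finrank K W := Submodule.finrank_lt_finrank_of_lt hFlt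
  have hlt2 : Module.finrank K W ≤ Module.finrank K V := Submodule.finrank_le W
  have hlt3 := hlt r hr hrq
  have hdiff : lam ^ (Module.finrank K W - Module.finrank K F) = 1 := by
    have h1 : lam ^ Module.finrank K F * lam ^ (Module.finrank K W - Module.finrank K F) =
        lam ^ Module.finrank K F := by
      rw [← pow_add, Nat.add_sub_cancel' hlt1.le, ← e2, ← e1]
    have h2 : lam ^ Module.finrank K F ≠ 0 := by
      rw [← e1]
      exact ζ.ne_zero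
    exact mul_left_cancel₀ h2 (by rw [h1, mul_one])
  have hcop : Nat.Coprime (r ^ j) (Module.finrank K W - Module.finrank K F) := by
    apply Nat.Coprime.pow_left
    rw [Nat.Prime.coprime_iff_not_dvd hrp]
    intro h
    have := Nat.le_of_dvd (by omega) h
    omega
  have hlam1 : lam = 1 := by
    have h1 := pow_gcd_eq_one.mpr ⟨hlamr, hdiff⟩
    rwa [Nat.coprime_iff_gcd_eq_one.mp hcop, pow_one] at h1
  have hζ1 : ζ = 1 := by
    apply Units.ext
    rw [e1, hlam1, one_pow, Units.val_one]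
  rw [hζ1, orderOf_one] at hζ
  exact hrp.one_lt.ne hζ

end Pool.Agent.Helper75.CV
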