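import Pool.Agent.Helper75.CV.Defs
import Pool.Agent.Helper75.CV.P_good_mem

set_option autoImplicit false

namespace Pool.Agent.Helper75.CV



theorem case_ii {K V : Type} [Field K] [Fintype K] [AddCommGroup V] [Module K V] [Finite V]
    (q : ℕ) (hq : q.Prime) (hV : Module.finrank K V = q) (π : Set ℕ)
    (hqπ : q ∈ π) (H P A : Subgroup (V ≃ₗ[K] V)) (hH : Good π H) (hs : Split q H P A)
    (hA : ∀ a ∈ A, ∀ b ∈ A, a * b = b * a)
    (b : Module.Basis (Fin (Module.finrank K V)) K V)
    (hb : ∀ g : V ≃ₗ[K] V, (∀ a ∈ A, a * g = g * a) → ∀ i, ∃ μ : K, g (b i) = μ • b i) :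
    False := by
  classical
  have : Finite (V ≃ₗ[K] V) :=
    Finite.of_injective (fun e : V ≃ₗ[K] V => (e : V → V)) DFunLike.coe_injective
  have : NeZero (Module.finrank K V) := ⟨by rw [hV]; exact hq.ne_zero⟩
  have : Nontrivial (Fin (Module.finrank K V)) := by
    rw [Fin.nontrivial_iff_two_le, hV]; exact hq.two_le
  -- every element of H is diagonal
  have hdiag : ∀ h ∈ H, ∀ i, ∃ μ : K, h (b i) = μ • b i := by
    intro h hh
    apply hb
    intro a ha
    obtain ⟨x, hx, a0, ha0, rfl⟩ := hs.prod h hh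
    rw [← mul_assoc, ← hs.comm x hx a ha, mul_assoc, mul_assoc, hA a ha a0 ha0]
  -- diagonal elements of pi-order are in H
  have hmem : ∀ g : V ≃ₗ[K] V, (∀ i, ∃ μ : K, g (b i) = μ • b i) →
      (∀ p : ℕ, p.Prime → p ∣ orderOf g → p ∈ π) → g ∈ H := by
    intro g hg ho
    refine good_mem π H hH g ?_ ho
    intro h hh
    have hc : g * h = h * g := by
      apply LinearEquiv.toLinearMap_injective
      apply b.ext
      intro i
      obtain ⟨μ, hμ⟩ := hg i
      obtain ⟨ν, hν⟩ := hdiag h hh i
      change g (h (b i)) = h (g (b i))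
      rw [hν, hμ, map_smul, map_smul, hν, hμ, smul_smul, smul_smul, mul_comm]
    rw [hc, mul_assoc, mul_inv_cancel, mul_one]
    exact hh
  obtain ⟨σ, hσ⟩ : ∃ σ : V ≃ₗ[K] V, ∀ i, σ (b i) = b (i + 1) :=
    ⟨b.equiv b (Equiv.addRight (1 : Fin (Module.finrank K V))), fun i => by
      rw [Module.Basis.equiv_apply]; rfl⟩
  have hσpow : ∀ k : ℕ, ∀ i, (σ ^ k) (b i) = b (i + k • (1 : Fin (Module.finrank K V))) := by
    intro k
    induction k with
    | zero => intro i; simp
    | succ k ih =>
      intro i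
      rw [pow_succ]
      change (σ ^ k) (σ (b i)) = _
      rw [hσ, ih, succ_nsmul, add_assoc, add_comm (1 : Fin (Module.finrank K V))]
  have hσq : σ ^ q = 1 := by
    apply LinearEquiv.toLinearMap_injective
    apply b.ext
    intro i
    change (σ ^ q) (b i) = b i
    rw [hσpow]
    have e0 : q • (1 : Fin (Module.finrank K V)) = 0 := by
      have := card_nsmul_eq_zero (x := (1 : Fin (Module.finrank K V)))
      rw [Fintype.card_fin] at this
      rw [← hV]; exact this
    rw [e0, add_zero]
  have hσH : σ ∈ H := by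
    refine good_mem π H hH σ ?_ ?_
    · intro h hh
      apply hmem
      · intro i
        obtain ⟨μ, hμ⟩ := hdiag h hh (i - 1)
        refine ⟨μ, ?_⟩
        have e1 : σ⁻¹ (b i) = b (i - 1) := by
          have : σ (b (i - 1)) = b i := by rw [hσ]; congr 1; simp
          rw [← this]
          change σ⁻¹ (σ (b (i-1))) = _
          change (σ⁻¹ * σ) (b (i-1)) = _
          rw [inv_mul_cancel]; rfl
        change σ (h (σ⁻¹ (b i))) = _
        rw [e1, hμ, map_smul, hσ]
        congr 2
        simp
      · intro p hp hpo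
        apply hH.primes p hp
        have e2 : orderOf (σ * h * σ⁻¹) = orderOf h := by
          have := MulEquiv.orderOf_eq (MulAut.conj σ) h
          rwa [MulAut.conj_apply] at this
        rw [e2] at hpo
        exact hpo.trans (Subgroup.orderOf_dvd_natCard H hh)
    · intro p hp hpo
      have h1 : p ∣ q := hpo.trans (orderOf_dvd_of_pow_eq_one hσq)
      have h2 : p = q := (Nat.prime_dvd_prime_iff_eq hp hq).1 h1
      rw [h2]; exact hqπ
  obtain ⟨μ, hμ⟩ := hdiag σ hσH 0
  rw [hσ, zero_add] at hμ
  have h3 := congrArg (fun v => b.repr v 1) hμ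
  simp only [map_smul, Module.Basis.repr_self, Finsupp.smul_apply, Finsupp.single_apply] at h3
  have h4 : Module.finrank K V ≠ 1 := by rw [hV]; exact hq.ne_one
  simp [h4] at h3

end Pool.Agent.Helper75.CV
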