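import Pool.Agent.Helper75.CV.Defs

set_option autoImplicit false

namespace Pool.Agent.Helper75.CV



open scoped commutatorElement in
theorem exists_central_mem (N : Type) [Group N] [Group.IsNilpotent N] (A : Subgroup N) (hA : A.Normal)
    (hne : A ≠ ⊥) : ∃ x ∈ A, x ≠ 1 ∧ ∀ g : N, x * g = g * x := by
  classical
  obtain ⟨n, hn⟩ := Group.IsNilpotent.nilpotent N
  obtain ⟨a, haA, ha1⟩ : ∃ a : N, a ∈ A ∧ a ≠ 1 := by
    by_contra hcon
    push Not at hcon
    exact hne ((Subgroup.eq_bot_iff_forall A).2 hcon)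
  have hex : ∃ m, ∃ x ∈ A, x ≠ 1 ∧ x ∈ Subgroup.upperCentralSeries N m :=
    ⟨n, a, haA, ha1, by rw [hn]; trivial⟩
  have hm := Nat.find_spec hex
  have hmin : ∀ m' < Nat.find hex, ¬ ∃ x ∈ A, x ≠ 1 ∧ x ∈ Subgroup.upperCentralSeries N m' :=
    fun m' h => Nat.find_min hex h
  obtain ⟨x, hxA, hx1, hxm⟩ := hm
  rcases hk : Nat.find hex with _ | m
  · rw [hk] at hxm
    exact absurd (Subgroup.mem_bot.1 hxm) hx1
  · rw [hk] at hxm hmin
    refine ⟨x, hxA, hx1, fun g => ?_⟩
    have h1 : ⁅x, g⁆ ∈ Subgroup.upperCentralSeries N m :=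
      Subgroup.mem_upperCentralSeries_succ_iff.1 hxm g
    have h2 : ⁅x, g⁆ ∈ A := by
      have : ⁅x, g⁆ = x * (g * x⁻¹ * g⁻¹) := by
        rw [commutatorElement_def]; group
      rw [this]
      exact A.mul_mem hxA (hA.conj_mem _ (A.inv_mem hxA) g)
    by_contra hne'
    refine hmin m (Nat.lt_succ_self m) ⟨⁅x, g⁆, h2, fun h => hne' ?_, h1⟩
    exact commutatorElement_eq_one_iff_mul_comm.1 h

theorem chief_central (G : Type) [Group G] [Finite G] [Group.IsNilpotent G] (K H : Subgroup G)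
    [K.Normal] (h : IsChief K H) : cent K H = ⊤ := by
  classical
  have hHn : H.Normal := h.normal_right
  have hHbn : (H.map (QuotientGroup.mk' K)).Normal := hHn.map _ (QuotientGroup.mk'_surjective K)
  have hHb : H.map (QuotientGroup.mk' K) ≠ ⊥ := by
    intro hb
    have : H ≤ (QuotientGroup.mk' K).ker := (Subgroup.map_eq_bot_iff _).1 hb
    rw [QuotientGroup.ker_mk'] at this
    exact absurd this (not_le_of_gt h.lt)
  obtain ⟨y, hyH, hy1, hyc⟩ := exists_central_mem (G ⧸ K) _ hHbn hHb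
  obtain ⟨x, hxH, rfl⟩ := Subgroup.mem_map.1 hyH
  let Z : Subgroup G := (Subgroup.center (G ⧸ K)).comap (QuotientGroup.mk' K)
  have hZ : Z.Normal := by
    show ((Subgroup.center (G ⧸ K)).comap (QuotientGroup.mk' K)).Normal
    infer_instance
  have hKZ : K ≤ Z := by
    intro k hk
    show QuotientGroup.mk' K k ∈ Subgroup.center (G ⧸ K)
    have : QuotientGroup.mk' K k = 1 := (QuotientGroup.eq_one_iff k).2 hk
    rw [this]
    exact Subgroup.one_mem _
  have hxZ : x ∈ Z := by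
    show QuotientGroup.mk' K x ∈ Subgroup.center (G ⧸ K)
    rw [Subgroup.mem_center_iff]
    intro g
    exact (hyc g).symm
  have hN : (H ⊓ Z).Normal := by infer_instance
  have hle : H ≤ Z := by
    rcases h.minimal (H ⊓ Z) hN (le_inf h.lt.le hKZ) inf_le_left with h1 | h1
    · exfalso
      apply hy1
      have : x ∈ K := by rw [← h1]; exact ⟨hxH, hxZ⟩
      exact (QuotientGroup.eq_one_iff x).2 this
    · rw [← h1]; exact inf_le_right
  rw [eq_top_iff]
  intro g _
  show QuotientGroup.mk' K g ∈ Subgroup.centralizer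
    ((H.map (QuotientGroup.mk' K) : Subgroup (G ⧸ K)) : Set (G ⧸ K))
  rw [Subgroup.mem_centralizer_iff]
  rintro z ⟨w, hw, rfl⟩
  have : QuotientGroup.mk' K w ∈ Subgroup.center (G ⧸ K) := hle hw
  exact (Subgroup.mem_center_iff.1 this _).symm

end Pool.Agent.Helper75.CV
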