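import Pool.Agent.Helper75.CV.Defs

set_option autoImplicit false

namespace Pool.Agent.Helper75.CV



theorem covering_good (π : Set ℕ) (hπ : ∀ p ∈ π, p.Prime) {G : Type} [Group G] [Finite G]
    (H : Subgroup G) (h : IsCovering (NP π) H) : Good π H := by
  refine ⟨h.1.2.1, h.1.2.2, ?_⟩
  intro x hx p hp k hk
  have hpow : ∀ m : ℕ, ∀ g ∈ H, x ^ m * g * (x ^ m)⁻¹ ∈ H := by
    intro m
    induction m with
    | zero => intro g hg; simpa using hg
    | succ m ih =>
      intro g hg
      have h1 := hx _ (ih g hg)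
      have h2 : x ^ (m + 1) * g * (x ^ (m + 1))⁻¹ = x * (x ^ m * g * (x ^ m)⁻¹) * x⁻¹ := by
        rw [pow_succ']; group
      rw [h2]; exact h1
  have hinv : ∀ g ∈ H, x⁻¹ * g * x ∈ H := by
    intro g hg
    have h0 : 0 < orderOf x := orderOf_pos x
    have h1 : x ^ (orderOf x - 1) = x⁻¹ := by
      rw [eq_inv_iff_mul_eq_one, ← pow_succ, Nat.sub_add_cancel h0, pow_orderOf_eq_one]
    have h2 := hpow (orderOf x - 1) g hg
    rw [h1, inv_inv] at h2
    exact h2
  set U : Subgroup G := H ⊔ Subgroup.zpowers x with hU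
  have hHU : H ≤ U := le_sup_left
  have hxU : x ∈ U := (le_sup_right : Subgroup.zpowers x ≤ U) (Subgroup.mem_zpowers x)
  -- every element of U normalizes H
  have hnorm : ∀ u ∈ U, (∀ g ∈ H, u * g * u⁻¹ ∈ H) ∧ (∀ g ∈ H, u⁻¹ * g * u ∈ H) := by
    let K : Subgroup G :=
      { carrier := {u | (∀ g ∈ H, u * g * u⁻¹ ∈ H) ∧ (∀ g ∈ H, u⁻¹ * g * u ∈ H)}
        one_mem' := by
          constructor <;> (intro g hg; simpa using hg)
        mul_mem' := by
          rintro a b ⟨ha1, ha2⟩ ⟨hb1, hb2⟩
          constructor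
          · intro g hg
            have := ha1 _ (hb1 g hg)
            have e : a * b * g * (a * b)⁻¹ = a * (b * g * b⁻¹) * a⁻¹ := by group
            rw [e]; exact this
          · intro g hg
            have := hb2 _ (ha2 g hg)
            have e : (a * b)⁻¹ * g * (a * b) = b⁻¹ * (a⁻¹ * g * a) * b := by group
            rw [e]; exact this
        inv_mem' := by
          rintro a ⟨ha1, ha2⟩
          constructor
          · intro g hg
            rw [inv_inv]; exact ha2 g hg
          · intro g hg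
            rw [inv_inv]; exact ha1 g hg }
    have hle : U ≤ K := by
      refine sup_le ?_ ?_
      · intro u hu
        exact ⟨fun g hg => H.mul_mem (H.mul_mem hu hg) (H.inv_mem hu),
          fun g hg => H.mul_mem (H.mul_mem (H.inv_mem hu) hg) hu⟩
      · rw [Subgroup.zpowers_le]
        exact ⟨hx, hinv⟩
    exact fun u hu => hle hu
  have hN : (H.subgroupOf U).Normal := by
    constructor
    intro n hn g
    rw [Subgroup.mem_subgroupOf] at hn ⊢
    exact (hnorm g.1 g.2).1 _ hn
  set N := H.subgroupOf U with hNdef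
  set x' : U := ⟨x, hxU⟩ with hx'
  have hgen : ∀ q : U ⧸ N, q ∈ Subgroup.zpowers (QuotientGroup.mk' N x') := by
    let K : Subgroup U := (Subgroup.zpowers (QuotientGroup.mk' N x')).comap (QuotientGroup.mk' N)
    have hle : U ≤ K.map U.subtype := by
      refine sup_le ?_ ?_
      · intro u hu
        refine ⟨⟨u, hHU hu⟩, ?_, rfl⟩
        change QuotientGroup.mk' N ⟨u, hHU hu⟩ ∈ Subgroup.zpowers (QuotientGroup.mk' N x')
        have : QuotientGroup.mk' N ⟨u, hHU hu⟩ = 1 := by
          rw [QuotientGroup.mk'_apply, QuotientGroup.eq_one_iff]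
          exact hu
        rw [this]; exact Subgroup.one_mem _
      · rw [Subgroup.zpowers_le]
        exact ⟨x', Subgroup.mem_zpowers _, rfl⟩
    intro q
    obtain ⟨u, rfl⟩ := QuotientGroup.mk'_surjective N q
    obtain ⟨v, hv, hvu⟩ := hle u.2
    have : v = u := Subtype.ext hvu
    rw [← this]
    exact hv
  have hcyc : IsCyclic (U ⧸ N) := ⟨⟨_, hgen⟩⟩
  have hcard : Nat.card (U ⧸ N) ∣ p ^ k := by
    have h1 : orderOf (QuotientGroup.mk' N x') = Nat.card (U ⧸ N) :=
      orderOf_eq_card_of_forall_mem_zpowers hgen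
    rw [← h1, ← hk]
    have h2 : orderOf x' = orderOf x := Subgroup.orderOf_mk x hxU
    rw [← h2]
    exact orderOf_map_dvd (QuotientGroup.mk' N) x'
  have hnil : Group.IsNilpotent (U ⧸ N) := by
    let _ := IsCyclic.commGroup (α := U ⧸ N)
    infer_instance
  have hF : NP π (U ⧸ N) := by
    refine ⟨inferInstance, hnil, ?_⟩
    intro r hr hrd
    have h1 := hr.dvd_of_dvd_pow (hrd.trans hcard)
    rw [(Nat.prime_dvd_prime_iff_eq hr (hπ p hp)).1 h1]
    exact hp
  have htop := h.2 U hHU N hF
  rw [sup_idem] at htop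
  have hxN : x' ∈ N := by rw [hNdef, htop]; exact Subgroup.mem_top _
  exact hxN

end Pool.Agent.Helper75.CV
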