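import Pool.Agent.Helper75.CV.Defs

set_option autoImplicit false

namespace Pool.Agent.Helper75.CV



theorem exists_f (q : ℕ) (hq : q.Prime) (S : Finset ℕ) (hS : ∀ s ∈ S, s.Prime ∧ s ≠ q) :
    ∃ f : ℕ, f ≠ 0 ∧ ∀ s ∈ S, s ∣ q ^ f - 1 := by
  refine ⟨∏ s ∈ S, (s - 1), ?_, ?_⟩
  · rw [Finset.prod_ne_zero_iff]
    intro s hs
    have := (hS s hs).1.two_le
    omega
  · intro s hs
    obtain ⟨hsp, hsq⟩ := hS s hs
    obtain ⟨k, hk⟩ := Finset.dvd_prod_of_mem (fun s : ℕ => s - 1) hs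
    have hcop : Nat.Coprime q s := (Nat.coprime_primes hq hsp).2 (Ne.symm hsq)
    have h1 : q ^ (s - 1) ≡ 1 [MOD s] := by
      have := Nat.ModEq.pow_totient hcop
      rwa [Nat.totient_prime hsp] at this
    have h2 : q ^ (∏ s ∈ S, (s - 1)) ≡ 1 [MOD s] := by
      rw [hk, pow_mul]
      have := h1.pow k
      rwa [one_pow] at this
    exact (Nat.modEq_iff_dvd' (Nat.one_le_pow _ _ hq.pos)).1 h2.symm

end Pool.Agent.Helper75.CV
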