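import Pool.Agent.Helper75.CV.Defs

set_option autoImplicit false

namespace Pool.Agent.Helper75.CV



theorem fin_gl {K V : Type} [Field K] [AddCommGroup V] [Module K V] [Finite V]
    : Finite (V ≃ₗ[K] V) := by
  haveI : Finite (V → V) := inferInstance
  exact Finite.of_injective (fun (e : V ≃ₗ[K] V) => (e : V → V)) (fun e₁ e₂ h => by
    apply LinearEquiv.ext
    intro x
    exact congrFun h x)

end Pool.Agent.Helper75.CV
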