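import Pool.Agent.Helper75.CV.Defs

set_option autoImplicit false

namespace Pool.Agent.Helper75.CV



theorem quot_cyclic (G : Type) [Group G] [Finite G] [Group.IsNilpotent G] (p : ℕ) (hp : p.Prime)
    (h : p ∣ Nat.card G) : ∃ (N : Subgroup G) (_ : N.Normal),
      Nonempty ((G ⧸ N) ≃* Multiplicative (ZMod p)) := by
  have : Fact p.Prime := ⟨hp⟩
  obtain ⟨e⟩ := ((Group.isNilpotent_of_finite_tfae (G := G)).out 0 4).1 ‹_›
  have hpm : p ∈ (Nat.card G).primeFactors :=
    Nat.mem_primeFactors.2 ⟨hp, h, Nat.card_pos.ne'⟩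
  let P₀ : Sylow p G := default
  let f1 : (∀ q : (Nat.card G).primeFactors, ∀ P : Sylow q G, (↑P : Subgroup G)) →*
      (∀ P : Sylow p G, (↑P : Subgroup G)) :=
    { toFun := fun x => x ⟨p, hpm⟩, map_one' := rfl, map_mul' := fun _ _ => rfl }
  let f2 : (∀ P : Sylow p G, (↑P : Subgroup G)) →* (P₀ : Subgroup G) :=
    { toFun := fun x => x P₀, map_one' := rfl, map_mul' := fun _ _ => rfl }
  have hf1 : Function.Surjective f1 := by
    classical
    intro y
    refine ⟨Function.update (1 : ∀ q : (Nat.card G).primeFactors, ∀ P : Sylow q G, (↑P : Subgroup G)) ⟨p, hpm⟩ y, ?_⟩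
    show Function.update (1 : ∀ q : (Nat.card G).primeFactors, ∀ P : Sylow q G, (↑P : Subgroup G))
      (⟨p, hpm⟩ : (Nat.card G).primeFactors) y (⟨p, hpm⟩ : (Nat.card G).primeFactors) = y
    exact Function.update_self _ _ _
  have hf2 : Function.Surjective f2 := by
    classical
    intro y
    refine ⟨Function.update (1 : ∀ P : Sylow p G, (↑P : Subgroup G)) P₀ y, ?_⟩
    show Function.update (1 : ∀ P : Sylow p G, (↑P : Subgroup G)) P₀ y P₀ = y
    exact Function.update_self _ _ _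
  -- the order of the Sylow subgroup
  obtain ⟨n, hn⟩ := (IsPGroup.iff_card (p := p)).1 P₀.isPGroup'
  have hpP : p ∣ Nat.card (P₀ : Subgroup G) := P₀.dvd_card_of_dvd_card h
  have hn0 : n ≠ 0 := by
    rintro rfl
    rw [hn, pow_zero] at hpP
    exact hp.one_lt.ne' (Nat.dvd_one.1 hpP)
  obtain ⟨m, rfl⟩ := Nat.exists_eq_succ_of_ne_zero hn0
  obtain ⟨K, hK⟩ := Sylow.exists_subgroup_card_pow_prime (G := (P₀ : Subgroup G)) p (n := m)
    (by rw [hn]; exact pow_dvd_pow _ (Nat.le_succ m))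
  have hidx : K.index = p := by
    have h1 := K.card_mul_index
    rw [hK, hn, pow_succ] at h1
    exact Nat.eq_of_mul_eq_mul_left (pow_pos hp.pos m) h1
  have hKn : K.Normal := by
    apply Subgroup.normal_of_index_eq_minFac_card
    rw [hidx, hn, Nat.succ_eq_add_one, Nat.pow_minFac (Nat.succ_ne_zero m), hp.minFac_eq]
  let φ : G →* (P₀ : Subgroup G) ⧸ K :=
    (QuotientGroup.mk' K).comp (f2.comp (f1.comp e.symm.toMonoidHom))
  have hφ : Function.Surjective φ := by
    refine (QuotientGroup.mk'_surjective K).comp (hf2.comp (hf1.comp e.symm.surjective))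
  refine ⟨φ.ker, inferInstance, ⟨(QuotientGroup.quotientKerEquivOfSurjective φ hφ).trans
    (mulEquivOfPrimeCardEq (p := p) ?_ ?_)⟩⟩
  · exact hidx
  · simp

end Pool.Agent.Helper75.CV
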