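import Pool.Agent.Helper75.CV.Defs
import Pool.Agent.Helper75.CV.P_quot_cyclic
import Pool.Agent.Helper75.CV.P_chief_central

set_option autoImplicit false

namespace Pool.Agent.Helper75.CV



theorem nilp_class (F : GroupClass) (hF : IsFormation F) (hl : IsLocal F)
    (hn : ∀ (G : Type) [Group G], F G → Group.IsNilpotent G) (G : Type) [Group G] :
    F G ↔ NP {p | p.Prime ∧ F (Multiplicative (ZMod p))} G := by
  constructor
  · intro hG
    haveI := hF.finite G hG
    haveI := hn G hG
    refine ⟨inferInstance, inferInstance, fun p hp hpd => ⟨hp, ?_⟩⟩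
    obtain ⟨N, hN, e⟩ := quot_cyclic G p hp hpd
    exact hF.iso (G ⧸ N) _ e (hF.quotient G N hG)
  · rintro ⟨hfin, hnil, hprimes⟩
    haveI := hfin
    haveI := hnil
    obtain ⟨f, hf, hloc⟩ := hl
    rw [hloc G]
    intro K H hKn hc p hp hdvd
    have hcent : cent K H = ⊤ := chief_central G K H hc
    have hnormal : (cent K H).Normal := by rw [hcent]; infer_instance
    refine ⟨hnormal, ?_⟩
    have hpG : p ∣ Nat.card G := by
      have h1 : K.relIndex H ∣ Nat.card H := by
        unfold Subgroup.relIndex
        exact Subgroup.index_dvd_card _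
      exact (hdvd.trans h1).trans (Subgroup.card_subgroup_dvd_card H)
    have hFC : F (Multiplicative (ZMod p)) := (hprimes p hp hpG).2
    haveI : Fact p.Prime := ⟨hp⟩
    haveI : NeZero p := ⟨hp.ne_zero⟩
    have hcard : Nat.card (Multiplicative (ZMod p)) = p := by
      rw [Nat.card_eq_fintype_card, Fintype.card_multiplicative, ZMod.card]
    haveI : Nontrivial (Multiplicative (ZMod p)) := by
      have : 1 < Nat.card (Multiplicative (ZMod p)) := by rw [hcard]; exact hp.one_lt
      exact Finite.one_lt_card_iff_nontrivial.1 this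
    have hchief : IsChief (⊥ : Subgroup (Multiplicative (ZMod p))) ⊤ := by
      refine ⟨inferInstance, inferInstance, bot_lt_top, fun N _ _ _ => ?_⟩
      haveI : Fact (Nat.card (Multiplicative (ZMod p))).Prime := ⟨by rw [hcard]; exact hp⟩
      exact Subgroup.eq_bot_or_eq_top_of_prime_card N
    obtain ⟨hCn, hfC⟩ := (hloc (Multiplicative (ZMod p))).1 hFC ⊥ ⊤ hchief p hp (by
      rw [Subgroup.relIndex_top_right, Subgroup.index_bot, hcard])
    have hcent' : cent (⊥ : Subgroup (Multiplicative (ZMod p))) ⊤ = ⊤ :=
      chief_central _ _ _ hchief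
    have hform : IsFormation (f p) := by
      rcases hf p with h | h
      · exact h
      · exact absurd hfC (h _)
    refine hform.iso _ _ ⟨?_⟩ hfC
    have s1 : ∀ a b : Multiplicative (ZMod p) ⧸ cent (⊥ : Subgroup (Multiplicative (ZMod p))) ⊤,
        a = b := by
      intro a b
      obtain ⟨x, rfl⟩ := QuotientGroup.mk_surjective a
      obtain ⟨y, rfl⟩ := QuotientGroup.mk_surjective b
      exact QuotientGroup.eq.2 (by rw [hcent']; trivial)
    have s2 : ∀ a b : G ⧸ cent K H, a = b := by
      intro a b
      obtain ⟨x, rfl⟩ := QuotientGroup.mk_surjective a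
      obtain ⟨y, rfl⟩ := QuotientGroup.mk_surjective b
      exact QuotientGroup.eq.2 (by rw [hcent]; trivial)
    exact { toFun := fun _ => 1
            invFun := fun _ => 1
            left_inv := fun a => s1 _ _
            right_inv := fun a => s2 _ _
            map_mul' := fun a b => s2 _ _ }

end Pool.Agent.Helper75.CV
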