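import Pool.Agent.Helper75.CV.Defs

set_option autoImplicit false

namespace Pool.Agent.Helper75.CV



theorem nc1 {K : Type} [Group K] [Finite K] (hK : Group.IsNilpotent K) (p q : ℕ) (hp : p.Prime)
    (hq : q.Prime) (hne : p ≠ q) (x y : K) (k j : ℕ) (hx : orderOf x = q ^ k)
    (hy : orderOf y = p ^ j) : Commute x y := by
  have := Fact.mk hp
  have := Fact.mk hq
  have hn := ((Group.isNilpotent_of_finite_tfae (G := K)).out 0 3).mp hK
  have hX : IsPGroup q (Subgroup.zpowers x) := by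
    refine IsPGroup.of_card (n := k) ?_
    rw [Nat.card_zpowers, hx]
  have hY : IsPGroup p (Subgroup.zpowers y) := by
    refine IsPGroup.of_card (n := j) ?_
    rw [Nat.card_zpowers, hy]
  obtain ⟨Q, hQ⟩ := hX.exists_le_sylow
  obtain ⟨P, hP⟩ := hY.exists_le_sylow
  exact Subgroup.commute_of_normal_of_disjoint (Q : Subgroup K) (P : Subgroup K)
    (hn q inferInstance Q) (hn p inferInstance P)
    (IsPGroup.disjoint_of_ne q p hne.symm _ _ Q.isPGroup' P.isPGroup') x y
    (hQ (Subgroup.mem_zpowers x)) (hP (Subgroup.mem_zpowers y))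

theorem nc2 {K : Type} [Group K] [Finite K] (hK : Group.IsNilpotent K) (q : ℕ)
    (hq : q.Prime) (x : K) (k : ℕ) (hx : orderOf x = q ^ k) :
    ∀ n : ℕ, ∀ a : K, orderOf a = n → ¬ q ∣ n → Commute x a := by
  intro n
  induction n using Nat.recOnPosPrimePosCoprime with
  | prime_pow p m hp hm =>
    intro a ha hqn
    refine nc1 hK p q hp hq ?_ x a k m hx ha
    rintro rfl
    exact hqn (dvd_pow_self p hm.ne')
  | zero =>
    intro a ha
    exact absurd ha (orderOf_pos a).ne'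
  | one =>
    intro a ha _
    rw [orderOf_eq_one_iff] at ha
    rw [ha]
    exact Commute.one_right x
  | coprime s t hs ht hst ihs iht =>
    intro a ha hqn
    have h1 : orderOf (a ^ s) = t := by
      rw [orderOf_pow_of_dvd (by omega) (ha ▸ Dvd.intro _ rfl), ha]
      exact Nat.mul_div_cancel_left t (by omega)
    have h2 : orderOf (a ^ t) = s := by
      rw [orderOf_pow_of_dvd (by omega) (ha ▸ Dvd.intro_left _ rfl), ha]
      exact Nat.mul_div_cancel s (by omega)
    have c1 := iht (a ^ s) h1 (fun h => hqn (h.mul_left s))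
    have c2 := ihs (a ^ t) h2 (fun h => hqn (h.mul_right t))
    obtain ⟨u, v, huv⟩ := Nat.isCoprime_iff_coprime.mpr hst
    have h3 : a = (a ^ s) ^ u * (a ^ t) ^ v := by
      rw [← zpow_natCast, ← zpow_natCast, ← zpow_mul, ← zpow_mul, ← zpow_add]
      rw [mul_comm (s : ℤ) u, mul_comm (t : ℤ) v, huv, zpow_one]
    rw [h3]
    exact (c1.zpow_right u).mul_right (c2.zpow_right v)

theorem nil_split (q : ℕ) (hq : q.Prime) {G : Type} [Group G] [Finite G] (H : Subgroup G)
    (hH : Group.IsNilpotent H) : ∃ P A : Subgroup G, Split q H P A := by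
  have := Fact.mk hq
  have hn := ((Group.isNilpotent_of_finite_tfae (G := H)).out 0 3).mp hH
  obtain ⟨Q⟩ : Nonempty (Sylow q H) := inferInstance
  have hQn : (Q : Subgroup H).Normal := hn q inferInstance Q
  obtain ⟨B, hB⟩ := Subgroup.exists_right_complement'_of_coprime (N := (Q : Subgroup H))
    Q.card_coprime_index
  have hBq : ∀ b ∈ B, ¬ q ∣ orderOf b := by
    intro b hb hd
    have h1 : orderOf b ∣ Nat.card B := Subgroup.orderOf_dvd_natCard B hb
    have h2 : (Q : Subgroup H).index = Nat.card B := hB.symm.index_eq_card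
    exact Q.not_dvd_index (h2 ▸ (hd.trans h1))
  have hQq : ∀ x ∈ (Q : Subgroup H), ∃ k : ℕ, orderOf x = q ^ k := by
    intro x hx
    obtain ⟨k, hk⟩ := (IsPGroup.iff_orderOf.mp Q.isPGroup') ⟨x, hx⟩
    refine ⟨k, ?_⟩
    rw [← hk]
    exact Subgroup.orderOf_coe (⟨x, hx⟩ : (Q : Subgroup H))
  have hcomm : ∀ x ∈ (Q : Subgroup H), ∀ b ∈ B, Commute x b := by
    intro x hx b hb
    obtain ⟨k, hk⟩ := hQq x hx
    exact nc2 hH q hq x k hk _ b rfl (hBq b hb)
  have hprod : ∀ h : H, ∃ x ∈ (Q : Subgroup H), ∃ b ∈ B, h = x * b := by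
    intro h
    obtain ⟨⟨x, b⟩, hxb⟩ := hB.2 h
    exact ⟨x.1, x.2, b.1, b.2, hxb.symm⟩
  have hord : ∀ x ∈ (Q : Subgroup H), ∀ b ∈ B, orderOf (x * b) = orderOf x * orderOf b := by
    intro x hx b hb
    refine (hcomm x hx b hb).orderOf_mul_eq_mul_orderOf_of_coprime ?_
    obtain ⟨k, hk⟩ := hQq x hx
    rw [hk]
    exact Nat.Coprime.pow_left k ((Nat.Prime.coprime_iff_not_dvd hq).mpr (hBq b hb))
  refine ⟨(Q : Subgroup H).map H.subtype, B.map H.subtype, ?_, ?_, ?_, ?_, ?_, ?_, ?_, ?_⟩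
  · exact Subgroup.map_subtype_le _
  · exact Subgroup.map_subtype_le _
  · exact Q.isPGroup'.map _
  · rintro a ⟨b, hb, rfl⟩
    rw [Subgroup.subtype_apply, Subgroup.orderOf_coe]
    exact hBq b hb
  · rintro x ⟨x', hx', rfl⟩ a ⟨b, hb, rfl⟩
    have := (hcomm x' hx' b hb).eq
    rw [← map_mul, this, map_mul]
  · intro h hh
    obtain ⟨x, hx, b, hb, hxb⟩ := hprod ⟨h, hh⟩
    refine ⟨x, ⟨x, hx, rfl⟩, b, ⟨b, hb, rfl⟩, ?_⟩
    have := congrArg Subtype.val hxb
    simpa using this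
  · intro x hx k hk
    obtain ⟨y, hy, b, hb, hyb⟩ := hprod ⟨x, hx⟩
    have h1 := hord y hy b hb
    rw [← hyb, Subgroup.orderOf_mk, hk] at h1
    have h2 : orderOf b ∣ q ^ k := Dvd.intro_left _ h1.symm
    have h3 : Nat.Coprime (q ^ k) (orderOf b) :=
      Nat.Coprime.pow_left k ((Nat.Prime.coprime_iff_not_dvd hq).mpr (hBq b hb))
    have h4 : orderOf b = 1 := Nat.Coprime.eq_one_of_dvd h3.symm h2
    rw [orderOf_eq_one_iff] at h4
    refine ⟨y, hy, ?_⟩
    rw [h4, mul_one] at hyb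
    rw [← hyb]
    rfl
  · intro x hx hxq
    obtain ⟨y, hy, b, hb, hyb⟩ := hprod ⟨x, hx⟩
    have h1 := hord y hy b hb
    rw [← hyb, Subgroup.orderOf_mk] at h1
    obtain ⟨k, hk⟩ := hQq y hy
    have h2 : k = 0 := by
      by_contra hk0
      apply hxq
      rw [h1, hk]
      exact (dvd_pow_self q hk0).mul_right _
    rw [h2, pow_zero, orderOf_eq_one_iff] at hk
    refine ⟨b, hb, ?_⟩
    rw [hk, one_mul] at hyb
    rw [← hyb]
    rfl

end Pool.Agent.Helper75.CV
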