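import Pool.Agent.Helper75.CV.Defs

set_option autoImplicit false

namespace Pool.Agent.Helper75.CV



open Polynomial in
theorem pow_card_nt (Q d m : ℕ) (hQ : 1 ≤ Q) (hd : 0 < d)
    (h : ∀ s : ℕ, s.Prime → s ∣ m → d < s ∧ s ∣ Q - 1) :
    Nat.Coprime m (∑ i ∈ Finset.range d, Q ^ i) := by
  apply Nat.Coprime.symm
  apply Nat.coprime_of_dvd
  intro s hs hS hm
  obtain ⟨h1, h2⟩ := h s hs hm
  have h3 : (Q : ZMod s) = 1 := by
    have := (ZMod.natCast_eq_zero_iff (Q - 1) s).mpr h2
    rw [Nat.cast_sub hQ] at this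
    simpa [sub_eq_zero] using this
  have h4 : ((∑ i ∈ Finset.range d, Q ^ i : ℕ) : ZMod s) = (d : ZMod s) := by
    push_cast
    rw [h3]
    simp
  have h5 : ((∑ i ∈ Finset.range d, Q ^ i : ℕ) : ZMod s) = 0 :=
    (ZMod.natCast_eq_zero_iff _ s).mpr hS
  rw [h4] at h5
  have h6 : s ∣ d := (ZMod.natCast_eq_zero_iff d s).mp h5
  exact absurd (Nat.le_of_dvd hd h6) (by omega)

open Polynomial in
theorem pow_card_irr {K : Type} [Field K] [Fintype K] (g : K[X]) (hg : Irreducible g) (m : ℕ)
    (hm : g ∣ X ^ m - 1)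
    (h : ∀ s : ℕ, s.Prime → s ∣ m → g.natDegree < s ∧ s ∣ Fintype.card K - 1) :
    g ∣ X ^ (Fintype.card K - 1) - 1 := by
  haveI : Fact (Irreducible g) := ⟨hg⟩
  have hg0 : g ≠ 0 := hg.ne_zero
  let B := AdjoinRoot.powerBasis hg0
  haveI : FiniteDimensional K (AdjoinRoot g) := B.finite
  haveI : Finite (AdjoinRoot g) := Module.finite_of_finite K
  haveI : Fintype (AdjoinRoot g) := Fintype.ofFinite _
  have hcard : Fintype.card (AdjoinRoot g) = Fintype.card K ^ g.natDegree := by
    rw [Module.card_eq_pow_finrank (K := K), B.finrank, AdjoinRoot.powerBasis_dim]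
  set Q := Fintype.card K with hQdef
  have hQ : 1 < Q := Fintype.one_lt_card
  have hd : 0 < g.natDegree := hg.natDegree_pos
  have hroot : (AdjoinRoot.root g) ^ m = 1 := by
    have := AdjoinRoot.mk_eq_zero.mpr hm
    rw [map_sub, map_pow, map_one, AdjoinRoot.mk_X, sub_eq_zero] at this
    exact this
  have hm0 : m ≠ 0 := by
    rintro rfl
    obtain ⟨p, hp1, hp2⟩ := Nat.exists_infinite_primes (Q + 1)
    have := (h p hp2 (dvd_zero p)).2
    have := Nat.le_of_dvd (by omega) this
    omega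
  have hne : AdjoinRoot.root g ≠ 0 := by
    intro h0
    rw [h0, zero_pow hm0] at hroot
    exact zero_ne_one hroot
  have h1 : (AdjoinRoot.root g) ^ (Q ^ g.natDegree - 1) = 1 := by
    rw [← hcard]
    exact FiniteField.pow_card_sub_one_eq_one _ hne
  have hfac : (Q - 1) * (∑ i ∈ Finset.range g.natDegree, Q ^ i) = Q ^ g.natDegree - 1 := by
    rw [mul_comm, Nat.geomSum_eq (by omega)]
    exact Nat.div_mul_cancel (Nat.sub_one_dvd_pow_sub_one Q g.natDegree)
  have hcop := pow_card_nt Q g.natDegree m (by omega) hd h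
  have ho1 : orderOf (AdjoinRoot.root g) ∣ m := orderOf_dvd_of_pow_eq_one hroot
  have ho2 : orderOf (AdjoinRoot.root g) ∣ (Q - 1) * (∑ i ∈ Finset.range g.natDegree, Q ^ i) := by
    rw [hfac]
    exact orderOf_dvd_of_pow_eq_one h1
  have ho3 : orderOf (AdjoinRoot.root g) ∣ Q - 1 :=
    Nat.Coprime.dvd_of_dvd_mul_right (Nat.Coprime.coprime_dvd_left ho1 hcop) ho2
  have ho4 : (AdjoinRoot.root g) ^ (Q - 1) = 1 := orderOf_dvd_iff_pow_eq_one.mp ho3
  rw [← AdjoinRoot.mk_eq_zero, map_sub, map_pow, map_one, AdjoinRoot.mk_X, ho4, sub_self]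

open Polynomial in
theorem pow_card_sqf {K : Type} [Field K] (f P : K[X]) (hf : Squarefree f)
    (h : ∀ g : K[X], Irreducible g → g ∣ f → g ∣ P) : f ∣ P := by
  classical
  obtain ⟨k, hk⟩ := EuclideanDomain.gcd_dvd_left f P
  have hk1 : IsUnit k := by
    by_contra hku
    have hf0 : f ≠ 0 := hf.ne_zero
    have hk0 : k ≠ 0 := by
      rintro rfl
      rw [mul_zero] at hk
      exact hf0 hk
    obtain ⟨g, hg, hgk⟩ := WfDvdMonoid.exists_irreducible_factor hku hk0
    have hgf : g ∣ f := by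
      rw [hk]
      exact Dvd.dvd.mul_left hgk _
    have hgP := h g hg hgf
    have hgd : g ∣ EuclideanDomain.gcd f P := EuclideanDomain.dvd_gcd hgf hgP
    have : g * g ∣ f := by
      rw [hk]
      exact mul_dvd_mul hgd hgk
    exact hg.not_isUnit (hf g this)
  have h1 : f ∣ EuclideanDomain.gcd f P := by
    obtain ⟨u, hu⟩ := hk1
    refine ⟨(↑u⁻¹ : K[X]), ?_⟩
    conv_rhs => rw [hk]
    rw [mul_assoc, ← hu]
    simp
  exact h1.trans (EuclideanDomain.gcd_dvd_right f P)

theorem pow_card {K V : Type} [Field K] [Fintype K] [AddCommGroup V] [Module K V] [Finite V]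
    (a : V ≃ₗ[K] V) (h : ∀ s : ℕ, s.Prime → s ∣ orderOf a →
    Module.finrank K V < s ∧ s ∣ Fintype.card K - 1) : a ^ (Fintype.card K - 1) = 1 := by
  classical
  set f : Module.End K V := (a : V →ₗ[K] V) with hfdef
  set m := orderOf a with hmdef
  have hQ : 1 < Fintype.card K := Fintype.one_lt_card
  have hpow : ∀ k : ℕ, f ^ k = ((a ^ k : V ≃ₗ[K] V) : V →ₗ[K] V) := by
    intro k
    induction k with
    | zero => rfl
    | succ k ih =>
      rw [pow_succ, ih, pow_succ]
      rfl
  have hfm : f ^ m = 1 := by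
    rw [hpow, hmdef, pow_orderOf_eq_one]
    rfl
  have hdvd : minpoly K f ∣ (Polynomial.X ^ m - 1 : Polynomial K) := by
    apply minpoly.dvd
    simp [hfm]
  have hmK : (m : K) ≠ 0 := by
    intro h0
    obtain ⟨p, hp⟩ := CharP.exists K
    have hpm : p ∣ m := (CharP.cast_eq_zero_iff K p m).mp h0
    haveI := hp
    have hpp : p.Prime := (CharP.char_is_prime_or_zero K p).resolve_right (by
      intro hp0
      subst hp0
      haveI := CharP.charP_to_charZero K
      exact not_injective_infinite_finite (Nat.cast : ℕ → K) Nat.cast_injective)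
    have h1 := (h p hpp hpm).2
    have h2 : p ∣ Fintype.card K := by
      have := FiniteField.cast_card_eq_zero K
      exact (CharP.cast_eq_zero_iff K p _).mp this
    have h3 : p ∣ Fintype.card K - (Fintype.card K - 1) := Nat.dvd_sub h2 h1
    rw [show Fintype.card K - (Fintype.card K - 1) = 1 by omega] at h3
    exact hpp.one_lt.ne' (Nat.dvd_one.mp h3)
  have hsep : (Polynomial.X ^ m - 1 : Polynomial K).Separable :=
    Polynomial.X_pow_sub_one_separable_iff.mpr hmK
  have hsq : Squarefree (minpoly K f) := hsep.squarefree.squarefree_of_dvd hdvd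
  have hmin0 : minpoly K f ≠ 0 := hsq.ne_zero
  have hdeg : (minpoly K f).natDegree ≤ Module.finrank K V := by
    have h1 : minpoly K f ∣ LinearMap.charpoly f := LinearMap.minpoly_dvd_charpoly f
    have h2 := Polynomial.natDegree_le_of_dvd h1 (LinearMap.charpoly_monic f).ne_zero
    rwa [LinearMap.charpoly_natDegree] at h2
  have hfin : minpoly K f ∣ (Polynomial.X ^ (Fintype.card K - 1) - 1 : Polynomial K) := by
    apply pow_card_sqf _ _ hsq
    intro g hg hgf
    apply pow_card_irr g hg m (hgf.trans hdvd)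
    intro s hs hsm
    obtain ⟨h1, h2⟩ := h s hs hsm
    exact ⟨lt_of_le_of_lt ((Polynomial.natDegree_le_of_dvd hgf hmin0).trans hdeg) h1, h2⟩
  have hae : Polynomial.aeval f (Polynomial.X ^ (Fintype.card K - 1) - 1 : Polynomial K) = 0 :=
    (minpoly.dvd_iff).mp hfin
  have hfinal : f ^ (Fintype.card K - 1) = 1 := by
    simpa [sub_eq_zero] using hae
  rw [hpow] at hfinal
  apply LinearEquiv.toLinearMap_injective
  rw [hfinal]
  rfl

end Pool.Agent.Helper75.CV
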