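import Pool.Agent.Helper75.CV.Defs
import Pool.Agent.Helper75.CV.P_diag

set_option autoImplicit false

namespace Pool.Agent.Helper75.CV



theorem weights_aux_ss {K V : Type} [Field K] [Fintype K] [AddCommGroup V] [Module K V] [Finite V]
    (a : V ≃ₗ[K] V) (h : a ^ (Fintype.card K - 1) = 1) :
    Module.End.IsFinitelySemisimple (a : V →ₗ[K] V) := by
  have : Module.Finite K V := Module.Finite.of_finite
  have hpow : ((a : V →ₗ[K] V) : Module.End K V) ^ (Fintype.card K - 1) = 1 := by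
    have h1 : ∀ n : ℕ, (((a ^ n : V ≃ₗ[K] V) : V →ₗ[K] V) : Module.End K V) = ((a : V →ₗ[K] V) : Module.End K V) ^ n := by
      intro n
      induction n with
      | zero => rfl
      | succ n ih =>
        rw [pow_succ, pow_succ, ← ih]
        rfl
    rw [← h1, h]
    rfl
  refine Module.End.isFinitelySemisimple_iff_isSemisimple.mpr ?_
  refine Module.End.isSemisimple_of_squarefree_aeval_eq_zero
    (p := (Polynomial.X ^ (Fintype.card K - 1) - 1 : Polynomial K)) ?_ ?_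
  · refine Polynomial.Separable.squarefree ?_
    rw [Polynomial.X_pow_sub_one_separable_iff]
    have hq : 1 ≤ Fintype.card K := Fintype.card_pos
    rw [Nat.cast_sub hq, FiniteField.cast_card_eq_zero]
    simp
  · simp [hpow]

theorem weights {K V : Type} [Field K] [Fintype K] [AddCommGroup V] [Module K V] [Finite V]
    (A : Subgroup (V ≃ₗ[K] V)) (hA : ∀ a ∈ A, ∀ b ∈ A, a * b = b * a)
    (h : ∀ a ∈ A, a ^ (Fintype.card K - 1) = 1) :
    (∃ W W' : Submodule K V, IsCompl W W' ∧ 2 ≤ Module.finrank K W ∧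
      (∀ g : V ≃ₗ[K] V, (∀ a ∈ A, a * g = g * a) → (∀ w ∈ W, g w ∈ W) ∧ ∀ w ∈ W', g w ∈ W') ∧
      ∀ a ∈ A, ∃ μ : K, ∀ w ∈ W, a w = μ • w) ∨
    (∃ b : Module.Basis (Fin (Module.finrank K V)) K V, ∀ g : V ≃ₗ[K] V,
      (∀ a ∈ A, a * g = g * a) → ∀ i, ∃ μ : K, g (b i) = μ • b i) := by
  classical
  have hfin : Module.Finite K V := Module.Finite.of_finite
  let f : A → Module.End K V := fun a => ((a : V ≃ₗ[K] V) : V →ₗ[K] V)
  have hmaps : ∀ i j φ, Set.MapsTo (f i) ((f j).maxGenEigenspace φ) ((f j).maxGenEigenspace φ) := by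
    intro i j φ
    apply Module.End.mapsTo_maxGenEigenspace_of_comm
    have := hA j.1 j.2 i.1 i.2
    show (f j) * (f i) = (f i) * (f j)
    ext x
    exact congrArg (fun e : V ≃ₗ[K] V => e x) this
  have heq : ∀ (a : A) (μ : K), (f a).maxGenEigenspace μ = (f a).eigenspace μ := fun a μ =>
    (weights_aux_ss a.1 (h a.1 a.2)).maxGenEigenspace_eq_eigenspace μ
  let W : (A → K) → Submodule K V := fun χ => ⨅ a : A, (f a).eigenspace (χ a)
  have hind : iSupIndep W := by
    have := Module.End.independent_iInf_maxGenEigenspace_of_forall_mapsTo f hmaps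
    simpa only [heq] using this
  have htop : ⨆ χ, W χ = ⊤ := by
    have := Module.End.iSup_iInf_maxGenEigenspace_eq_top_of_forall_mapsTo f hmaps (by
      intro a
      simp only [heq]
      exact diag a.1 (h a.1 a.2))
    simpa only [heq] using this
  have hmem : ∀ (χ : A → K) (w : V), w ∈ W χ ↔ ∀ a : A, (a : V ≃ₗ[K] V) w = χ a • w := by
    intro χ w
    simp only [W, Submodule.mem_iInf, Module.End.mem_eigenspace_iff]
    rfl
  have hg : ∀ g : V ≃ₗ[K] V, (∀ a ∈ A, a * g = g * a) → ∀ χ, ∀ w ∈ W χ, g w ∈ W χ := by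
    intro g hgc χ w hw
    rw [hmem] at hw ⊢
    intro a
    have h1 : (a : V ≃ₗ[K] V) (g w) = g ((a : V ≃ₗ[K] V) w) :=
      congrArg (fun e : V ≃ₗ[K] V => e w) (hgc a.1 a.2)
    rw [h1, hw a, map_smul]
  by_cases hbig : ∃ χ, 2 ≤ Module.finrank K (W χ)
  · left
    obtain ⟨χ, hχ⟩ := hbig
    refine ⟨W χ, ⨆ ψ ≠ χ, W ψ, ⟨hind χ, ?_⟩, hχ, ?_, ?_⟩
    · rw [codisjoint_iff, ← htop]
      apply le_antisymm
      · exact sup_le (le_iSup W χ) (iSup₂_le fun ψ _ => le_iSup W ψ)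
      · refine iSup_le fun ψ => ?_
        by_cases hψ : ψ = χ
        · rw [hψ]; exact le_sup_left
        · exact le_sup_of_le_right (le_iSup₂_of_le ψ hψ le_rfl)
    · intro g hgc
      refine ⟨hg g hgc χ, ?_⟩
      intro w hw
      have hle : (⨆ ψ ≠ χ, W ψ) ≤ (⨆ ψ ≠ χ, W ψ).comap (g : V →ₗ[K] V) := by
        refine iSup₂_le fun ψ hψ => ?_
        intro x hx
        exact (le_iSup₂_of_le (f := fun ψ (_ : ψ ≠ χ) => W ψ) ψ hψ le_rfl) (hg g hgc ψ x hx)
      exact hle hw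
    · intro a ha
      exact ⟨χ ⟨a, ha⟩, fun w hw => (hmem χ w).mp hw ⟨a, ha⟩⟩
  · right
    push Not at hbig
    have hint : DirectSum.IsInternal W :=
      (DirectSum.isInternal_submodule_iff_iSupIndep_and_iSup_eq_top W).mpr ⟨hind, htop⟩
    let B := hint.collectedBasis (fun χ => Module.finBasis K (W χ))
    have : Fintype (Σ χ : A → K, Fin (Module.finrank K (W χ))) := 
      @Fintype.ofFinite _ (Module.Finite.finite_basis B)
    let e := B.indexEquiv (Module.finBasis K V)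
    refine ⟨B.reindex e, ?_⟩
    intro g hgc i
    have hB : ∀ j : (Σ χ : A → K, Fin (Module.finrank K (W χ))), ∃ μ : K, g (B j) = μ • B j := by
      rintro ⟨χ, j⟩
      have h1 : B ⟨χ, j⟩ = ((Module.finBasis K (W χ)) j : V) := by
        simp [B, DirectSum.IsInternal.collectedBasis_coe]
      have hBmem : B ⟨χ, j⟩ ∈ W χ := by rw [h1]; exact Subtype.mem _
      have hle : Module.finrank K (W χ) ≤ 1 := Nat.lt_succ_iff.mp (hbig χ)
      have hne : (⟨B ⟨χ, j⟩, hBmem⟩ : W χ) ≠ 0 := by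
        intro hz
        exact B.ne_zero ⟨χ, j⟩ (congrArg Subtype.val hz)
      obtain ⟨v, hv⟩ := finrank_le_one_iff.mp hle
      obtain ⟨c, hc⟩ := hv ⟨B ⟨χ, j⟩, hBmem⟩
      have hc0 : c ≠ 0 := by
        rintro rfl
        rw [zero_smul] at hc
        exact hne hc.symm
      obtain ⟨d, hd⟩ := hv ⟨g (B ⟨χ, j⟩), hg g hgc χ _ hBmem⟩
      refine ⟨d * c⁻¹, ?_⟩
      have h2 : (⟨g (B ⟨χ, j⟩), hg g hgc χ _ hBmem⟩ : W χ) = (d * c⁻¹) • ⟨B ⟨χ, j⟩, hBmem⟩ := by
        rw [← hd, ← hc, smul_smul, mul_assoc, inv_mul_cancel₀ hc0, mul_one]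
      exact congrArg Subtype.val h2
    rw [Module.Basis.reindex_apply]
    exact hB _

end Pool.Agent.Helper75.CV
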