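import Pool.Agent.Helper75.CV.Defs
import Pool.Agent.Helper75.CV.P_nil_split
import Pool.Agent.Helper75.CV.P_fin_gl
import Pool.Agent.Helper75.CV.P_pow_card
import Pool.Agent.Helper75.CV.P_abel
import Pool.Agent.Helper75.CV.P_weights
import Pool.Agent.Helper75.CV.P_case_ii
import Pool.Agent.Helper75.CV.P_case_i

set_option autoImplicit false

namespace Pool.Agent.Helper75.CV



theorem main_GL {K V : Type} [Field K] [Fintype K] [AddCommGroup V] [Module K V] [Finite V]
    (q : ℕ) (hq : q.Prime) [CharP K q] (hV : Module.finrank K V = q) (π : Set ℕ)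
    (hπ : ∀ p ∈ π, p.Prime) (hqπ : q ∈ π)
    (hs : ∀ s ∈ π, s ≠ q → q < s ∧ s ∣ Fintype.card K - 1)
    (r : ℕ) (hr : r ∈ π) (hrq : r ≠ q) (H : Subgroup (V ≃ₗ[K] V)) : ¬ Good π H := by
  intro hH
  haveI : Finite (V ≃ₗ[K] V) := fin_gl
  obtain ⟨P, A, hS⟩ := nil_split q hq H hH.nil
  have h1 : ∀ a ∈ A, ∀ s : ℕ, s.Prime → s ∣ orderOf a → q < s ∧ s ∣ Fintype.card K - 1 := by
    intro a ha s hsp hsd
    have hd : s ∣ Nat.card H := hsd.trans (Subgroup.orderOf_dvd_natCard H (hS.hA ha))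
    refine hs s (hH.primes s hsp hd) ?_
    rintro rfl
    exact hS.pA a ha hsd
  have hpow : ∀ a ∈ A, a ^ (Fintype.card K - 1) = 1 := fun a ha =>
    pow_card a fun s hsp hsd => by
      rw [hV]
      exact h1 a ha s hsp hsd
  have hnil : Group.IsNilpotent A := by
    haveI := hH.nil
    exact Group.nilpotent_of_mulEquiv (Subgroup.subgroupOfEquivOfLe hS.hA)
  have hcard : ∀ s : ℕ, s.Prime → s ∣ Nat.card A → Module.finrank K V < s := by
    intro s hsp hsd
    haveI : Fact s.Prime := ⟨hsp⟩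
    obtain ⟨x, hx⟩ := exists_prime_orderOf_dvd_card' s hsd
    rw [hV]
    refine (h1 x x.2 s hsp ?_).1
    rw [Subgroup.orderOf_coe, hx]
  have hab := abel A hnil hpow hcard
  rcases weights A hab hpow with ⟨W, W', hc, h2, hg, hW⟩ | ⟨b, hb⟩
  · refine case_i q hq π hπ hqπ ?_ r hr hrq (hs r hr hrq).2 H P A hH hS hab W W' hc h2 hg hW
    intro s hsπ hsq
    rw [hV]
    exact (hs s hsπ hsq).1
  · exact case_ii q hq hV π hqπ H P A hH hS hab b hb

end Pool.Agent.Helper75.CV
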