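import Pool.Agent.Helper75.CV.Defs

set_option autoImplicit false

namespace Pool.Agent.Helper75.CV



theorem two_nonscalar {K V : Type} [Field K] [Fintype K] [AddCommGroup V] [Module K V] [Finite V]
    (hV : Module.finrank K V = 2) (A : Subgroup (V ≃ₗ[K] V))
    (hA : Group.IsNilpotent A) (ho : ∀ a ∈ A, ¬ 2 ∣ orderOf a) :
    (∀ a ∈ A, ∃ μ : K, ∀ v, a v = μ • v) ∨
    ∃ a ∈ A, (∀ b ∈ A, a * b = b * a) ∧ ¬ ∃ μ : K, ∀ v, a v = μ • v := by
  classical
  by_contra hcon
  push Not at hcon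
  obtain ⟨⟨a, ha, hna⟩, hc⟩ := hcon
  have hcent : ∀ z : A, z ∈ Subgroup.center A → ∃ μ : K, ∀ v, (z : V ≃ₗ[K] V) v = μ • v := by
    intro z hz
    apply hc z z.2
    intro b hb
    have h := (Subgroup.mem_center_iff.1 hz) ⟨b, hb⟩
    have h2 := congrArg (Subtype.val) h
    simpa using h2.symm
  have hnot : ∃ x ∈ Subgroup.upperCentralSeries A 2, x ∉ Subgroup.center A := by
    by_contra hall
    push Not at hall
    have hstep : ∀ n, Subgroup.upperCentralSeries A n ≤ Subgroup.center A := by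
      intro n
      induction n with
      | zero => simp
      | succ n ih =>
        intro x hx
        apply hall
        rw [Subgroup.mem_upperCentralSeries_succ_iff] at hx ⊢
        intro y
        rw [Subgroup.upperCentralSeries_one]
        exact ih (hx y)
    obtain ⟨n, hn⟩ := hA.nilpotent'
    have htop : (⟨a, ha⟩ : A) ∈ Subgroup.center A := hstep n (by rw [hn]; trivial)
    obtain ⟨μ, hμ⟩ := hcent _ htop
    obtain ⟨v, hv⟩ := hna μ
    exact hv (hμ v)
  obtain ⟨x, hx2, hx1⟩ := hnot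
  rw [Subgroup.mem_center_iff] at hx1
  push Not at hx1
  obtain ⟨g, hg⟩ := hx1
  rw [Subgroup.mem_upperCentralSeries_succ_iff] at hx2
  have hz := hx2 g
  rw [Subgroup.upperCentralSeries_one, commutatorElement_def] at hz
  obtain ⟨μ, hμ⟩ := hcent _ hz
  set z : A := x * g * x⁻¹ * g⁻¹ with hzdef
  have hz1 : z ≠ 1 := by
    intro h
    apply hg
    have : x * g * x⁻¹ * g⁻¹ * (g * x) = g * x := by rw [← hzdef, h, one_mul]
    rw [← this]
    group
  have hrel : (z : V ≃ₗ[K] V) * g = x * g * (x : V ≃ₗ[K] V)⁻¹ := by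
    have : z * g = x * g * x⁻¹ := by rw [hzdef]; group
    have h2 := congrArg Subtype.val this
    simpa using h2
  have hdet : LinearEquiv.det (z : V ≃ₗ[K] V) = 1 := by
    have h := congrArg LinearEquiv.det hrel
    rw [map_mul, map_mul, map_mul, map_inv] at h
    have h3 : LinearEquiv.det (z : V ≃ₗ[K] V) * LinearEquiv.det (g : V ≃ₗ[K] V) =
        LinearEquiv.det (g : V ≃ₗ[K] V) := by
      rw [h, mul_comm (LinearEquiv.det (x : V ≃ₗ[K] V)), mul_assoc, mul_inv_cancel, mul_one]
    exact mul_eq_right.1 h3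
  have hmu : μ ^ 2 = 1 := by
    have h1 : ((z : V ≃ₗ[K] V) : V →ₗ[K] V) = μ • (LinearMap.id : V →ₗ[K] V) := by
      ext v
      simpa using hμ v
    have h2 : LinearMap.det ((z : V ≃ₗ[K] V) : V →ₗ[K] V) = 1 := by
      rw [← LinearEquiv.coe_det, hdet]
      rfl
    rw [h1, LinearMap.det_smul, hV, LinearMap.det_id, mul_one] at h2
    exact h2
  have hsq : z ^ 2 = 1 := by
    apply Subtype.ext
    ext v
    have : ((z ^ 2 : A) : V ≃ₗ[K] V) v = (z : V ≃ₗ[K] V) ((z : V ≃ₗ[K] V) v) := by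
      rw [pow_two]
      rfl
    rw [this, hμ, hμ, smul_smul, ← pow_two, hmu, one_smul]
    rfl
  have hord : orderOf z = 2 := orderOf_eq_prime hsq hz1
  have := ho z z.2
  rw [Subgroup.orderOf_coe, hord] at this
  exact this (dvd_refl 2)

end Pool.Agent.Helper75.CV
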