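import Pool.Agent.Helper75.CV.Defs

set_option autoImplicit false

namespace Pool.Agent.Helper75.CV



theorem two_tau {K V : Type} [Field K] [Fintype K] [AddCommGroup V] [Module K V] [Finite V]
    [CharP K 2] (hV : Module.finrank K V = 2) (a : V ≃ₗ[K] V)
    (ho : ¬ 2 ∣ orderOf a) (ha : ¬ ∃ μ : K, ∀ v, a v = μ • v) :
    (∀ x y : V ≃ₗ[K] V, x * a = a * x → y * a = a * y → x * y = y * x) ∧
    ∃ τ : V ≃ₗ[K] V, orderOf τ = 2 ∧ τ * a ≠ a * τ ∧
      ∀ x : V ≃ₗ[K] V, x * a = a * x → (τ * x * τ⁻¹) * a = a * (τ * x * τ⁻¹) := by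
  classical
  have hmul : ∀ (x y : V ≃ₗ[K] V) (w : V), (x * y) w = x (y w) := fun x y w => rfl
  obtain ⟨v, hv⟩ : ∃ v : V, LinearIndependent K ![v, a v] := by
    by_contra h
    push Not at h
    apply ha
    obtain ⟨μ, hμ⟩ := LinearMap.exists_eq_smul_id_of_forall_notLinearIndependent
      (f := (a : V →ₗ[K] V)) (fun v => h v)
    refine ⟨μ, fun v => ?_⟩
    have := congrArg (fun g : V →ₗ[K] V => g v) hμ
    simpa using this
  have hv0 : v ≠ 0 := by
    have := hv.ne_zero 0
    simpa using this
  let b : Module.Basis (Fin 2) K V := basisOfLinearIndependentOfCardEqFinrank hv (by simp [hV])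
  have hb : ⇑b = ![v, a v] := by
    simp [b]
  have hb0 : b 0 = v := by rw [hb]; rfl
  have hb1 : b 1 = a v := by rw [hb]; rfl
  have hrep : ∀ w : V, ∃ p q : K, w = p • v + q • a v := by
    intro w
    refine ⟨b.repr w 0, b.repr w 1, ?_⟩
    have h := b.sum_repr w
    rw [Fin.sum_univ_two, hb0, hb1] at h
    exact h.symm
  obtain ⟨d, t, htd⟩ : ∃ d t : K, a (a v) = t • a v - d • v := by
    obtain ⟨p, q, h⟩ := hrep (a (a v))
    refine ⟨-p, q, ?_⟩
    rw [h]
    module
  have htd' : ∀ w, a (a w) = t • a w - d • w := by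
    intro w
    obtain ⟨p, q, h⟩ := hrep w
    rw [h]
    simp only [map_add, map_smul, htd, map_sub]
    module
  -- the commutant
  have hcomm : ∀ x : V ≃ₗ[K] V, x * a = a * x → ∃ α β : K, ∀ w, x w = α • w + β • a w := by
    intro x hx
    obtain ⟨α, β, h⟩ := hrep (x v)
    refine ⟨α, β, fun w => ?_⟩
    have hxa : ∀ w, x (a w) = a (x w) := fun w => by
      rw [← hmul, hx, hmul]
    obtain ⟨p, q, hw⟩ := hrep w
    rw [hw]
    simp only [map_add, map_smul, hxa, h]
    module
  refine ⟨?_, ?_⟩
  · intro x y hx hy
    obtain ⟨α, β, h⟩ := hcomm x hx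
    apply LinearEquiv.ext
    intro w
    have hya : ∀ w, y (a w) = a (y w) := fun w => by
      rw [← hmul, hy, hmul]
    rw [hmul, hmul, h, h, map_add, map_smul, map_smul, hya]
  · -- the involution
    let T : V →ₗ[K] V := b.constr K ![v, t • v - a v]
    have hT0 : T v = v := by
      have := b.constr_basis K ![v, t • v - a v] 0
      rw [hb0] at this
      exact this
    have hT1 : T (a v) = t • v - a v := by
      have := b.constr_basis K ![v, t • v - a v] 1
      rw [hb1] at this
      exact this
    clear_value T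
    have hTT : Function.Involutive T := by
      intro w
      obtain ⟨p, q, hw⟩ := hrep w
      rw [hw]
      simp only [map_add, map_smul, hT0, hT1, map_sub]
      module
    have hTa : ∀ w, T (a w) = t • T w - a (T w) := by
      intro w
      obtain ⟨p, q, hw⟩ := hrep w
      rw [hw]
      simp only [map_add, map_smul, hT0, hT1, map_sub, htd]
      module
    let τ : V ≃ₗ[K] V := LinearEquiv.ofInvolutive T hTT
    have hτ : ∀ w, τ w = T w := fun w => rfl
    have hτ2 : τ ^ 2 = 1 := by
      apply LinearEquiv.ext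
      intro w
      rw [sq, hmul, hτ, hτ, hTT w]
      rfl
    have hτinv : τ⁻¹ = τ := by
      rw [inv_eq_iff_mul_eq_one, ← sq, hτ2]
    have h2 : (2:K) = 0 := CharP.cast_eq_zero K 2
    have hne : τ * a ≠ a * τ := by
      intro hc
      have h3 : ∀ w, T (a w) = a (T w) := by
        intro w
        have := congrArg (fun g : V ≃ₗ[K] V => g w) hc
        simpa [hmul, hτ] using this
      have h4 : t • v = 0 := by
        have e1 := hTa v
        rw [h3 v, hT0] at e1
        have e2 : (2:K) • a v = t • v := by
          rw [two_smul]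
          nth_rewrite 1 [e1]
          abel
        rw [← e2, h2, zero_smul]
      have ht : t = 0 := by
        rcases smul_eq_zero.1 h4 with h | h
        · exact h
        · exact absurd h hv0
      have h5 : ∀ w, a (a w) = (-d) • w := by
        intro w
        rw [htd' w, ht]
        module
      have h6 : ∀ (k : ℕ) (w : V), ((a ^ 2) ^ k) w = (-d) ^ k • w := by
        intro k
        induction k with
        | zero => intro w; simp
        | succ k ih =>
          intro w
          rw [pow_succ, hmul, ih, sq, hmul, h5, smul_smul, pow_succ]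
      apply ha
      have hodd : orderOf a % 2 = 1 := by omega
      refine ⟨(-d) ^ ((orderOf a + 1) / 2), fun w => ?_⟩
      rw [← h6, ← pow_mul]
      have h7 : 2 * ((orderOf a + 1) / 2) = orderOf a + 1 := by omega
      rw [h7, pow_succ, pow_orderOf_eq_one, one_mul]
    refine ⟨τ, ?_, hne, ?_⟩
    · apply orderOf_eq_prime hτ2
      intro h
      apply hne
      rw [h, one_mul, mul_one]
    · intro x hx
      obtain ⟨α, β, h⟩ := hcomm x hx
      rw [hτinv]
      have h8 : ∀ w, (τ * x * τ) w = (α + β * t) • w - β • a w := by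
        intro w
        rw [hmul, hmul, h, hτ, hτ, map_add, map_smul, map_smul, hTa, hTT w]
        module
      apply LinearEquiv.ext
      intro w
      rw [hmul (τ * x * τ) a, hmul a (τ * x * τ), h8, h8]
      simp only [map_sub, map_smul]

end Pool.Agent.Helper75.CV
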