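import Pool.Agent.Helper75.CV.Defs
import Pool.Agent.Helper75.CV.P_good_mem
import Pool.Agent.Helper75.CV.P_nil_split
import Pool.Agent.Helper75.CV.P_fin_gl
import Pool.Agent.Helper75.CV.P_case_i
import Pool.Agent.Helper75.CV.P_two_nonscalar
import Pool.Agent.Helper75.CV.P_two_tau

set_option autoImplicit false

namespace Pool.Agent.Helper75.CV



theorem main_two {K V : Type} [Field K] [Fintype K] [AddCommGroup V] [Module K V] [Finite V]
    [CharP K 2] (hV : Module.finrank K V = 2) (π : Set ℕ)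
    (hπ : ∀ p ∈ π, p.Prime) (h2 : 2 ∈ π) (r : ℕ) (hr : r ∈ π) (hr2 : r ≠ 2)
    (hrK : r ∣ Fintype.card K - 1) (H : Subgroup (V ≃ₗ[K] V)) : ¬ Good π H := by
  intro hG
  haveI hfin : Finite (V ≃ₗ[K] V) := fin_gl
  obtain ⟨P, A, hs⟩ := nil_split 2 Nat.prime_two H hG.nil
  have hAn : Group.IsNilpotent A := by
    haveI := hG.nil
    haveI h1 : Group.IsNilpotent (A.subgroupOf H) := inferInstance
    exact Group.nilpotent_of_surjective (Subgroup.subgroupOfEquivOfLe hs.hA).toMonoidHom
      (Subgroup.subgroupOfEquivOfLe hs.hA).surjective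
  rcases two_nonscalar hV A hAn hs.pA with hsc | ⟨a, ha, hab, hnon⟩
  · refine case_i 2 Nat.prime_two π hπ h2 ?_ r hr hr2 hrK H P A hG hs ?_ ⊤ ⊥ isCompl_top_bot ?_ ?_ ?_
    · intro s hsπ hs2
      rw [hV]
      have := (hπ s hsπ).two_le
      omega
    · intro a ha b hb
      obtain ⟨μ, hμ⟩ := hsc a ha
      obtain ⟨ν, hν⟩ := hsc b hb
      ext v
      simp only [LinearEquiv.mul_apply]
      rw [hν, hμ, hμ, hν, smul_comm]
    · rw [finrank_top, hV]
    · intro g _
      refine ⟨fun _ _ => Submodule.mem_top, fun w hw => ?_⟩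
      rw [Submodule.mem_bot] at hw ⊢
      rw [hw, map_zero]
    · intro a ha
      obtain ⟨μ, hμ⟩ := hsc a ha
      exact ⟨μ, fun w _ => hμ w⟩
  · obtain ⟨hcomm, τ, hτ2, hτa, hτc⟩ := two_tau hV a (hs.pA a ha) hnon
    have hHa : ∀ h ∈ H, h * a = a * h := by
      intro h hh
      obtain ⟨x, hx, b, hb, rfl⟩ := hs.prod h hh
      rw [mul_assoc, ← hab b hb, ← mul_assoc, hs.comm x hx a ha, mul_assoc]
    have hmem : ∀ x : V ≃ₗ[K] V, x * a = a * x → (∀ p : ℕ, p.Prime → p ∣ orderOf x → p ∈ π) →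
        x ∈ H := by
      intro x hx ho
      refine good_mem π H hG x (fun h hh => ?_) ho
      rw [hcomm x h hx (hHa h hh), mul_assoc, mul_inv_cancel, mul_one]
      exact hh
    have hτH : ∀ h ∈ H, τ * h * τ⁻¹ ∈ H := by
      intro h hh
      refine hmem _ (hτc h (hHa h hh)) fun p hp hpo => ?_
      have e : orderOf (τ * h * τ⁻¹) = orderOf h := by
        have := (MulAut.conj τ).orderOf_eq h
        simpa using this
      rw [e] at hpo
      exact hG.primes p hp (hpo.trans (Subgroup.orderOf_dvd_natCard H hh))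
    have hτmem : τ ∈ H := by
      refine good_mem π H hG τ hτH fun p hp hpo => ?_
      rw [hτ2] at hpo
      rw [(Nat.prime_dvd_prime_iff_eq hp Nat.prime_two).mp hpo]
      exact h2
    exact hτa (hHa τ hτmem)

end Pool.Agent.Helper75.CV
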