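import Pool.Agent.Helper75.CV.Defs
import Pool.Agent.Helper75.CV.P_covering_good
import Pool.Agent.Helper75.CV.P_fin_gl
import Pool.Agent.Helper75.CV.P_main_GL
import Pool.Agent.Helper75.CV.P_main_two
import Pool.Agent.Helper75.CV.P_exists_f

set_option autoImplicit false

namespace Pool.Agent.Helper75.CV



theorem no_cov (π : Set ℕ) (hπ : ∀ p ∈ π, p.Prime) (hfin : π.Finite ∨ 2 ∈ π)
    (hns : ¬ π.Subsingleton) : ∃ (G : Type) (_ : Group G) (_ : Finite G),
      ∀ H : Subgroup G, ¬ IsCovering (NP π) H := by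
  classical
  rw [Set.not_subsingleton_iff] at hns
  obtain ⟨a, ha, b, hb, hab⟩ := hns
  have hother : ∀ q : ℕ, ∃ r ∈ π, r ≠ q := by
    intro q
    by_cases haq : a = q
    · exact ⟨b, hb, fun h => hab (haq.trans h.symm)⟩
    · exact ⟨a, ha, haq⟩
  by_cases h2 : 2 ∈ π
  · obtain ⟨r, hr, hr2⟩ := hother 2
    haveI : Fact (Nat.Prime 2) := ⟨Nat.prime_two⟩
    obtain ⟨f, hf0, hf⟩ := exists_f 2 Nat.prime_two {r} (by
      intro s hs
      rw [Finset.mem_singleton] at hs
      subst hs
      exact ⟨hπ _ hr, hr2⟩)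
    haveI : Fintype (GaloisField 2 f) := Fintype.ofFinite _
    have hcard : Fintype.card (GaloisField 2 f) = 2 ^ f := by
      rw [← Nat.card_eq_fintype_card]
      exact GaloisField.card 2 f hf0
    haveI hG : Finite ((Fin 2 → GaloisField 2 f) ≃ₗ[GaloisField 2 f] (Fin 2 → GaloisField 2 f)) :=
      fin_gl
    refine ⟨(Fin 2 → GaloisField 2 f) ≃ₗ[GaloisField 2 f] (Fin 2 → GaloisField 2 f),
      inferInstance, hG, fun H hH => ?_⟩
    refine main_two (K := GaloisField 2 f) (V := Fin 2 → GaloisField 2 f) (by simp) π hπ h2 r hr hr2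
      ?_ H (covering_good π hπ H hH)
    rw [hcard]
    exact hf r (Finset.mem_singleton_self r)
  · have hfin' : π.Finite := hfin.resolve_right h2
    have hq : sInf π ∈ π := Nat.sInf_mem ⟨a, ha⟩
    have hqle : ∀ s ∈ π, sInf π ≤ s := fun s hs => Nat.sInf_le hs
    obtain ⟨q, hqdef⟩ : ∃ q, q = sInf π := ⟨_, rfl⟩
    rw [← hqdef] at hq hqle
    have hqp : q.Prime := hπ q hq
    haveI : Fact q.Prime := ⟨hqp⟩
    obtain ⟨r, hr, hrq⟩ := hother q
    obtain ⟨f, hf0, hf⟩ := exists_f q hqp (hfin'.toFinset.erase q) (by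
      intro s hs
      rw [Finset.mem_erase, Set.Finite.mem_toFinset] at hs
      exact ⟨hπ _ hs.2, hs.1⟩)
    haveI : Fintype (GaloisField q f) := Fintype.ofFinite _
    have hcard : Fintype.card (GaloisField q f) = q ^ f := by
      rw [← Nat.card_eq_fintype_card]
      exact GaloisField.card q f hf0
    haveI hG : Finite ((Fin q → GaloisField q f) ≃ₗ[GaloisField q f] (Fin q → GaloisField q f)) :=
      fin_gl
    refine ⟨(Fin q → GaloisField q f) ≃ₗ[GaloisField q f] (Fin q → GaloisField q f),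
      inferInstance, hG, fun H hH => ?_⟩
    refine main_GL (K := GaloisField q f) (V := Fin q → GaloisField q f) q hqp (by simp) π hπ hq
      ?_ r hr hrq H (covering_good π hπ H hH)
    intro s hs hsq
    refine ⟨lt_of_le_of_ne (hqle s hs) (Ne.symm hsq), ?_⟩
    rw [hcard]
    exact hf s (by rw [Finset.mem_erase, Set.Finite.mem_toFinset]; exact ⟨hsq, hs⟩)

end Pool.Agent.Helper75.CV
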