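import Pool.Agent.Helper75.CV.Defs

set_option autoImplicit false

namespace Pool.Agent.Helper75.CV


theorem small_cov_aux (π : Set ℕ) (G : Type) [Group G] [Finite G] (H : Subgroup G)
    (hH : NP π H) (hi : ∀ p ∈ π, ¬ p ∣ H.index) : IsCovering (NP π) H := by
  refine ⟨hH, ?_⟩
  intro U hU N hN hF
  by_contra hne
  have h1 : (H.subgroupOf U ⊔ N).index ≠ 1 := by
    intro h
    exact hne (Subgroup.index_eq_one.mp h)
  obtain ⟨q, hq, hqd⟩ := Nat.exists_prime_and_dvd h1
  have h2 : q ∣ N.index := dvd_trans hqd (Subgroup.index_dvd_of_le le_sup_right)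
  have h3 : q ∣ (H.subgroupOf U).index := dvd_trans hqd (Subgroup.index_dvd_of_le le_sup_left)
  have h4 : q ∈ π := by
    apply hF.2.2 q hq
    rw [Subgroup.index_eq_card] at h2
    exact h2
  have h5 : q ∣ H.index := by
    have h6 : H.relIndex U * U.index = H.index := Subgroup.relIndex_mul_index hU
    rw [← h6]
    exact dvd_mul_of_dvd_left h3 _
  exact hi q h4 h5

theorem small_cov (π : Set ℕ) (hπ : ∀ p ∈ π, p.Prime) (hs : π.Subsingleton) (G : Type) [Group G]
    [Finite G] : ∃ H : Subgroup G, IsCovering (NP π) H := by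
  rcases Set.eq_empty_or_nonempty π with h0 | ⟨p, hp⟩
  · refine ⟨⊥, small_cov_aux π G ⊥ ⟨inferInstance, inferInstance, ?_⟩ ?_⟩
    · intro q hq hd
      rw [Subgroup.card_bot] at hd
      exact absurd (Nat.dvd_one.mp hd) hq.ne_one
    · intro q hq
      rw [h0] at hq
      exact absurd hq (Set.notMem_empty q)
  · haveI : Fact p.Prime := ⟨hπ p hp⟩
    obtain ⟨P⟩ : Nonempty (Sylow p G) := inferInstance
    refine ⟨(P : Subgroup G), small_cov_aux π G P ⟨inferInstance, ?_, ?_⟩ ?_⟩
    · exact IsPGroup.isNilpotent P.isPGroup'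
    · intro q hq hd
      obtain ⟨n, hn⟩ := (IsPGroup.iff_card.mp P.isPGroup')
      rw [hn] at hd
      have := (Nat.prime_dvd_prime_iff_eq hq (hπ p hp)).mp (hq.dvd_of_dvd_pow hd)
      rw [this]
      exact hp
    · intro q hq
      rw [hs hq hp]
      exact Sylow.not_dvd_index P

end Pool.Agent.Helper75.CV
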