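import Pool.Agent.Helper75.CV.Defs
import Pool.Agent.Helper75.CV.P_nilp_class
import Pool.Agent.Helper75.CV.P_small_cov
import Pool.Agent.Helper75.CV.P_no_cov

set_option autoImplicit false

namespace Pool.Agent.Helper75.CV



theorem main (F : GroupClass) (hF : IsFormation F) (hl : IsLocal F)
    (hn : ∀ (G : Type) [Group G], F G → Group.IsNilpotent G)
    (hfin : {p : ℕ | p.Prime ∧ F (Multiplicative (ZMod p))}.Finite ∨
      F (Multiplicative (ZMod 2))) :
    (∀ (G : Type) [Group G] [Finite G], ∃ H : Subgroup G, IsCovering F H) ↔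
      (∀ (G : Type) [Group G], F G ↔ Subsingleton G) ∨
      ∃ p : ℕ, p.Prime ∧ ∀ (G : Type) [Group G], F G ↔ Finite G ∧ IsPGroup p G := by
  obtain ⟨π, hπdef⟩ : ∃ π : Set ℕ, π = {p : ℕ | p.Prime ∧ F (Multiplicative (ZMod p))} := ⟨_, rfl⟩
  have hmem : ∀ p, p ∈ π ↔ p.Prime ∧ F (Multiplicative (ZMod p)) := by
    intro p; rw [hπdef]; exact Iff.rfl
  have hFeq : F = NP π := by
    funext G inst
    rw [hπdef]
    exact propext (nilp_class F hF hl hn G)
  have hπp : ∀ p ∈ π, p.Prime := fun p hp => ((hmem p).1 hp).1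
  have hfin' : π.Finite ∨ 2 ∈ π := by
    rcases hfin with h | h
    · left; rw [hπdef]; exact h
    · right; exact (hmem 2).2 ⟨Nat.prime_two, h⟩
  constructor
  · intro hc
    have hs : π.Subsingleton := by
      by_contra hns
      obtain ⟨G, hG, hfinG, h⟩ := no_cov π hπp hfin' hns
      obtain ⟨H, hH⟩ := hc G
      rw [hFeq] at hH
      exact h H hH
    rcases hs.eq_empty_or_singleton with h0 | ⟨p, hp⟩
    · left
      intro G _
      rw [hFeq, h0]
      constructor
      · rintro ⟨h1, _, h3⟩
        have hcard : Nat.card G = 1 := by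
          by_contra hne
          obtain ⟨q, hq, hqd⟩ := Nat.exists_prime_and_dvd hne
          exact h3 q hq hqd
        exact (Nat.card_eq_one_iff_unique.1 hcard).1
      · intro hsub
        refine ⟨inferInstance, inferInstance, ?_⟩
        intro q hq hqd
        have hcard : Nat.card G = 1 := Nat.card_eq_one_iff_unique.2 ⟨hsub, ⟨1⟩⟩
        rw [hcard, Nat.dvd_one] at hqd
        exact absurd hqd hq.ne_one
    · right
      have hpp : p.Prime := hπp p (by rw [hp]; exact Set.mem_singleton p)
      refine ⟨p, hpp, ?_⟩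
      intro G _
      haveI : Fact p.Prime := ⟨hpp⟩
      rw [hFeq, hp]
      constructor
      · rintro ⟨h1, _, h3⟩
        refine ⟨h1, ?_⟩
        have h4 : Nat.card G = p ^ (Nat.card G).primeFactorsList.length :=
          Nat.eq_prime_pow_of_unique_prime_dvd Nat.card_pos.ne' (fun {d} hd hdd => h3 d hd hdd)
        exact IsPGroup.of_card h4
      · rintro ⟨h1, h2⟩
        refine ⟨h1, h2.isNilpotent, ?_⟩
        intro q hq hqd
        obtain ⟨n, hn'⟩ := IsPGroup.iff_card.1 h2
        rw [hn'] at hqd
        exact Set.mem_singleton_iff.2 ((Nat.prime_dvd_prime_iff_eq hq hpp).1 (hq.dvd_of_dvd_pow hqd))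
  · intro h
    have hs : π.Subsingleton := by
      rcases h with h | ⟨p, hpp, h⟩
      · intro q hq
        exfalso
        obtain ⟨hq1, hq2⟩ := (hmem q).1 hq
        haveI : Fact q.Prime := ⟨hq1⟩
        have h1 := (h _).1 hq2
        exact not_subsingleton (Multiplicative (ZMod q)) h1
      · have key : ∀ q ∈ π, q = p := by
          intro q hq
          obtain ⟨hq1, hq2⟩ := (hmem q).1 hq
          haveI : Fact q.Prime := ⟨hq1⟩
          haveI : Fact p.Prime := ⟨hpp⟩
          obtain ⟨h1, h2⟩ := (h _).1 hq2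
          obtain ⟨n, hn'⟩ := IsPGroup.iff_card.1 h2
          have h3 : Nat.card (Multiplicative (ZMod q)) = q := by
            rw [Nat.card_congr (Multiplicative.toAdd : Multiplicative (ZMod q) ≃ ZMod q), Nat.card_zmod]
          rw [h3] at hn'
          have h4 : q ∣ p ^ n := hn' ▸ dvd_rfl
          exact (Nat.prime_dvd_prime_iff_eq hq1 hpp).1 (hq1.dvd_of_dvd_pow h4)
        intro q hq r hr
        rw [key q hq, key r hr]
    intro G _ _
    rw [hFeq]
    exact small_cov π hπp hs G

end Pool.Agent.Helper75.CV
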